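import Pool.Agent.Helper10.SP.GoalsC
import Pool.Agent.Helper55.SP.AFFT
import Pool.Agent.Helper16.Abund.Basic

/-! # Packet SP-EXTS: the extension step -/

open Complex Metric Set Filter Topology MeasureTheory
open scoped ContDiff ComplexConjugate ComplexOrder Manifold

namespace Pool.Agent.Helper9.SP

open Pool.Agent.Helper95.Lin Pool.Agent.Helper16.Abund Pool.Agent.Helper92.Orb
open Pool.Agent.Helper10.SP
open Pool.Agent.Helper55.SP (base_pt lc_pt pt_base_lc base_ew lc_ew ext_bl base_add base_smul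
  lc_add lc_smul pt_eq_add baseL lcL embL embL_apply isOpen_prodS pt_mem det_block)

universe u v

/-- The map `(z, w) ↦ (g z, a z * w + β z)`. -/
noncomputable def TM {b : ℕ} (t : Tri b) (x : Cn (b + 1)) : Cn (b + 1) :=
  pt (t.g (base x)) (t.a (base x) * lc x + t.β (base x))

theorem TM_deriv {b : ℕ} (t : Tri b) {U : Set (Cn b)} (hU : IsOpen U) (ht : t.HolOn U)
    (x : Cn (b + 1)) (hx : base x ∈ U) :
    DifferentiableAt ℂ (TM t) x ∧
      (fderiv ℂ (TM t) x).det = (fderiv ℂ t.g (base x)).det * t.a (base x) := by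
  have hg : HasFDerivAt t.g (fderiv ℂ t.g (base x)) (base x) :=
    ((ht.1 _ hx).differentiableAt (hU.mem_nhds hx)).hasFDerivAt
  have ha : HasFDerivAt t.a (fderiv ℂ t.a (base x)) (base x) :=
    ((ht.2.1 _ hx).differentiableAt (hU.mem_nhds hx)).hasFDerivAt
  have hβ : HasFDerivAt t.β (fderiv ℂ t.β (base x)) (base x) :=
    ((ht.2.2 _ hx).differentiableAt (hU.mem_nhds hx)).hasFDerivAt
  have hb : HasFDerivAt (fun y : Cn (b + 1) => base y) (baseL b) x := (baseL b).hasFDerivAt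
  have hl : HasFDerivAt (fun y : Cn (b + 1) => lc y) (lcL b) x := (lcL b).hasFDerivAt
  have hg' := (embL b).hasFDerivAt.comp x (hg.comp x hb)
  have ha' := ((ha.comp x hb).mul hl).add (hβ.comp x hb)
  have hT := hg'.add (ha'.smul_const (ew b))
  have hT' := hT.congr_of_eventuallyEq (f₁ := TM t)
    (Filter.Eventually.of_forall fun y => pt_eq_add _ _)
  refine ⟨hT'.differentiableAt, ?_⟩
  rw [hT'.fderiv]
  have hbe : baseL b (ew b) = 0 := base_ew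
  have hle : lcL b (ew b) = 1 := lc_ew
  rw [det_block (A := fderiv ℂ t.g (base x))]
  · congr 1
    simp only [ContinuousLinearMap.add_apply, ContinuousLinearMap.comp_apply, hbe, map_zero,
      ContinuousLinearMap.smulRight_apply, ContinuousLinearMap.smul_apply, hle, smul_eq_mul,
      mul_zero, add_zero, mul_one, zero_add, lc_smul, lc_ew]
    rfl
  · simp only [ContinuousLinearMap.add_apply, ContinuousLinearMap.comp_apply, hbe, map_zero,
      ContinuousLinearMap.smulRight_apply, zero_add, base_smul, base_ew, smul_zero]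
  · intro w
    have hbw : baseL b (pt w 0) = w := base_pt w 0
    simp only [ContinuousLinearMap.add_apply, ContinuousLinearMap.comp_apply, hbw,
      ContinuousLinearMap.smulRight_apply, base_add, base_smul, base_ew, smul_zero, add_zero,
      embL_apply, base_pt]

theorem convex_prodS {b : ℕ} {U : Set (Cn b)} {Δ : Set ℂ} (hU : Convex ℝ U) (hΔ : Convex ℝ Δ) :
    Convex ℝ (prodS U Δ) := by
  intro x hx y hy p q hp hq hpq
  exact ⟨hU hx.1 hy.1 hp hq hpq, hΔ hx.2 hy.2 hp hq hpq⟩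

theorem prodS_mono {b : ℕ} {U U' : Set (Cn b)} {Δ Δ' : Set ℂ} (hU : U ⊆ U') (hΔ : Δ ⊆ Δ') :
    prodS U Δ ⊆ prodS U' Δ' := fun _ hx => ⟨hU hx.1, hΔ hx.2⟩

theorem HoloOn_mono {n : ℕ} {M : Type v} [TopologicalSpace M] [ChartedSpace (Fin n → ℂ) M]
    {f : Cn n → M} {V V' : Set (Cn n)} (h : HoloOn n f V) (hV' : IsOpen V') (hs : V' ⊆ V) :
    HoloOn n f V' := ⟨hV', h.2.mono hs⟩

/-- Pulling back a special map by a map of the pseudogroup. -/
theorem spec_TM (hPARB : S_PARB.{u, v}) {b : ℕ} {G : Type u} {M : Type v} [Group G]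
    [MulAction G M] [TopologicalSpace M] [T2Space M] [ChartedSpace (Fin (b + 1) → ℂ) M]
    [IsManifold 𝓘(ℂ, Fin (b + 1) → ℂ) ω M] {h : M → Matrix (Fin (b + 1)) (Fin (b + 1)) ℂ}
    {v : M → ℝ} (hD : Data b G M h v) {U U' : Set (Cn b)} {Δ Δ' : Set ℂ}
    {ψ' : Cn (b + 1) → M} {Ψ Ψ' : Cn b → ℝ} (hU : IsOpen U) (hΔ : IsOpen Δ)
    (hψ' : Spec v U' Δ' ψ' Ψ') (γ : G) (t : Tri b) (ht : t.HolOn U)
    (hpot : ∀ z ∈ U, t.g z ∈ U' ∧ PotR Ψ Ψ' t z)
    (hΔt : ∀ z ∈ U, ∀ w ∈ Δ, t.a z * w + t.β z ∈ Δ')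
    (hΨ : ContDiffOn ℝ ∞ Ψ U) (hpos : ∀ z ∈ U, ∀ e, e ≠ 0 → 0 < lev Ψ z e) :
    Spec v U Δ (fun x => γ • ψ' (TM t x)) Ψ := by
  obtain ⟨P1, P2, -, -, -⟩ := hPARB hD
  have hdet : ∀ x ∈ prodS U Δ, (fderiv ℂ (TM t) x).det ≠ 0 := by
    intro x hx
    rw [(TM_deriv t hU ht x hx.1).2]
    exact mul_ne_zero (hpot _ hx.1).2.2.1 (hpot _ hx.1).2.1
  obtain ⟨hA, hB⟩ := P1 (prodS U' Δ') (prodS U Δ) ψ' (TM t) hψ'.1 (isOpen_prodS hU hΔ)
    (fun x hx => (TM_deriv t hU ht x hx.1).1.differentiableWithinAt)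
    (fun x hx => pt_mem (hpot _ hx.1).1 (hΔt _ hx.1 _ hx.2)) hdet
  obtain ⟨hA', hB'⟩ := P2 γ _ _ hA
  refine ⟨hA', hΨ, hpos, ?_⟩
  intro x hx
  have h1 := hB' x hx
  have h2 := (hB x hx).2
  have h3 := hψ'.2.2.2 (TM t x) (pt_mem (hpot _ hx.1).1 (hΔt _ hx.1 _ hx.2))
  have h4 : base (TM t x) = t.g (base x) := base_pt _ _
  obtain ⟨ha0, hd0, heq⟩ := (hpot _ hx.1).2
  have h5 : Real.log (‖(fderiv ℂ (TM t) x).det‖ ^ 2) =
      Real.log (‖(fderiv ℂ t.g (base x)).det‖ ^ 2) + Real.log (‖t.a (base x)‖ ^ 2) := by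
    rw [(TM_deriv t hU ht x hx.1).2, norm_mul, mul_pow, Real.log_mul]
    · exact pow_ne_zero _ (norm_ne_zero_iff.2 hd0)
    · exact pow_ne_zero _ (norm_ne_zero_iff.2 ha0)
  have h1' : lpot (b + 1) v (fun x => γ • ψ' (TM t x)) x = lpot (b + 1) v (ψ' ∘ TM t) x := h1
  rw [h1', h2, h3, h4, h5, heq]
  ring

theorem exts (hPARB : S_PARB.{u, v}) (hIDM : S_IDM.{v}) (hTRS : S_TRS.{u, v}) (hACB : S_ACB) :
    S_EXTS.{u, v} := by
  intro b G M _ _ _ _ _ _ h v hD k ψ Ψ hψ hcov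
  -- the constant
  have hcon : ∀ i j : Fin k, ∃ C : ℝ, 1 ≤ C ∧ ∀ (V : Set (Cn b)) (t : Tri b), IsOpen V →
      V ⊆ ball 0 6 → t.HolOn V → MapsTo t.g V (ball 0 6) → (∀ z ∈ V, PotR (Ψ i) (Ψ j) t z) →
      ∀ z ∈ V, z ∈ closedBall (0 : Cn b) 5 → t.g z ∈ closedBall (0 : Cn b) 1 → ‖t.a z‖ ≤ C := by
    intro i j
    obtain ⟨C, hC, hC'⟩ := hACB (ball 0 6) (ball 0 6) (closedBall 0 5) (closedBall 0 1) (Ψ i) (Ψ j)
      isOpen_ball isOpen_ball (isCompact_closedBall _ _) (closedBall_subset_ball (by norm_num))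
      (isCompact_closedBall _ _) (closedBall_subset_ball (by norm_num)) (hψ i).2.1 (hψ j).2.1
      (hψ i).2.2.1 (hψ j).2.2.1
    exact ⟨C, hC, fun V t h1 h2 h3 h4 h5 z hz hz1 hz2 => (hC' V t h1 h2 h3 h4 h5 z hz hz1 hz2).1⟩
  choose CC hCC1 hCC2 using hcon
  obtain ⟨C, hC1, hCij⟩ : ∃ C : ℝ, 1 ≤ C ∧ ∀ i j, CC i j ≤ C := by
    refine ⟨1 + ∑ i, ∑ j, CC i j, ?_, ?_⟩
    · have : 0 ≤ ∑ i, ∑ j, CC i j := Finset.sum_nonneg fun i _ => Finset.sum_nonneg fun j _ =>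
        le_trans zero_le_one (hCC1 i j)
      linarith
    · intro i j
      have h1 : CC i j ≤ ∑ j, CC i j := Finset.single_le_sum (f := fun j => CC i j)
        (fun j _ => le_trans zero_le_one (hCC1 i j)) (Finset.mem_univ j)
      have h2 : ∑ j, CC i j ≤ ∑ i, ∑ j, CC i j := Finset.single_le_sum
        (f := fun i => ∑ j, CC i j)
        (fun i _ => Finset.sum_nonneg fun j _ => le_trans zero_le_one (hCC1 i j))
        (Finset.mem_univ i)
      linarith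
  have hC0 : 0 < C := lt_of_lt_of_le zero_lt_one hC1
  obtain ⟨s, hs0, hCs⟩ : ∃ s : ℝ, 0 < s ∧ C * s = 1 := ⟨1 / C, by positivity, by field_simp⟩
  refine ⟨s, hs0, ?_⟩
  intro i ρ χ hρ hχ
  -- local extensions
  have hloc : ∀ z₀ ∈ ball (0 : Cn b) 5, ∀ w₀ ∈ ball (0 : ℂ) ρ,
      ∃ (ε : ℝ) (F : Cn (b + 1) → M), 0 < ε ∧ ball z₀ ε ⊆ ball 0 5 ∧
        Spec v (ball z₀ ε) (ball w₀ s) F (Ψ i) ∧
        EqOn F χ (prodS (ball z₀ ε) (ball w₀ s ∩ ball 0 ρ)) := by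
    intro z₀ hz₀ w₀ hw₀
    obtain ⟨γ, j, x, hx, hγ⟩ := hcov (χ (pt z₀ w₀))
    have hxm : x ∈ prodS (ball (0 : Cn b) 6) (ball 0 6) :=
      prodS_mono (ball_subset_ball (by norm_num)) (ball_subset_ball (by norm_num)) hx
    obtain ⟨ρ₁, hρ₁, t, hb1, hb2, hol, hxeq, hpot, hmap⟩ := hTRS hD (ball 0 5) (ball 0 6)
      (ball 0 ρ) (ball 0 6) χ (ψ j) (Ψ i) (Ψ j) isOpen_ball isOpen_ball isOpen_ball isOpen_ball
      hχ (hψ j) γ (pt z₀ w₀) (pt_mem hz₀ hw₀) x hxm hγ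
    rw [base_pt] at hb1 hol hxeq hpot hmap
    rw [lc_pt] at hb2 hxeq hmap
    have hz₀m : z₀ ∈ ball z₀ ρ₁ := mem_ball_self hρ₁
    have hgx : t.g z₀ = base x := by rw [hxeq, base_pt]
    have hlx : t.a z₀ * w₀ + t.β z₀ = lc x := by rw [hxeq, lc_pt]
    have haC : ‖t.a z₀‖ ≤ C := by
      refine le_trans (hCC2 i j (ball z₀ ρ₁) t isOpen_ball
        (hb1.trans (ball_subset_ball (by norm_num))) hol (fun z hz => (hpot z hz).1)
        (fun z hz => (hpot z hz).2) z₀ hz₀m (ball_subset_closedBall hz₀) ?_) (hCij i j)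
      rw [hgx]
      exact ball_subset_closedBall hx.1
    have hca : ContinuousAt t.a z₀ :=
      ((hol.2.1 _ hz₀m).differentiableAt (isOpen_ball.mem_nhds hz₀m)).continuousAt
    have hcβ : ContinuousAt t.β z₀ :=
      ((hol.2.2 _ hz₀m).differentiableAt (isOpen_ball.mem_nhds hz₀m)).continuousAt
    have hev1 : ∀ᶠ z in 𝓝 z₀, ‖t.a z‖ < 2 * C :=
      hca.norm.eventually_lt continuousAt_const (by linarith)
    have hev2 : ∀ᶠ z in 𝓝 z₀, ‖t.a z * w₀ + t.β z‖ < 1 := by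
      refine ((hca.mul continuousAt_const).add hcβ).norm.eventually_lt continuousAt_const ?_
      show ‖t.a z₀ * w₀ + t.β z₀‖ < 1
      rw [hlx]
      simpa using hx.2
    obtain ⟨ε', hε', hsub⟩ := Metric.mem_nhds_iff.1 (hev1.and hev2)
    have hε : 0 < min ε' ρ₁ := lt_min hε' hρ₁
    have hsub1 : ball z₀ (min ε' ρ₁) ⊆ ball z₀ ρ₁ := ball_subset_ball (min_le_right _ _)
    have hsub2 : ∀ z ∈ ball z₀ (min ε' ρ₁), ‖t.a z‖ < 2 * C ∧ ‖t.a z * w₀ + t.β z‖ < 1 :=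
      fun z hz => hsub (ball_subset_ball (min_le_left _ _) hz)
    have hsub5 : ball z₀ (min ε' ρ₁) ⊆ ball 0 5 := hsub1.trans hb1
    have hF : Spec v (ball z₀ (min ε' ρ₁)) (ball w₀ s) (fun x => γ⁻¹ • ψ j (TM t x)) (Ψ i) := by
      refine spec_TM hPARB hD isOpen_ball isOpen_ball (hψ j) γ⁻¹ t
        ⟨hol.1.mono hsub1, hol.2.1.mono hsub1, hol.2.2.mono hsub1⟩
        (fun z hz => hpot z (hsub1 hz)) ?_ (hχ.2.1.mono hsub5)
        (fun z hz => hχ.2.2.1 z (hsub5 hz))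
      intro z hz w hw
      obtain ⟨h1, h2⟩ := hsub2 z hz
      rw [mem_ball_zero_iff]
      have hw' : ‖w - w₀‖ < s := by simpa [dist_eq_norm] using hw
      have e : t.a z * w + t.β z = t.a z * (w - w₀) + (t.a z * w₀ + t.β z) := by ring
      have h3 : ‖t.a z * (w - w₀)‖ ≤ 2 * C * s := by
        rw [norm_mul]
        exact mul_le_mul h1.le hw'.le (norm_nonneg _) (by positivity)
      calc ‖t.a z * w + t.β z‖ ≤ ‖t.a z * (w - w₀)‖ + ‖t.a z * w₀ + t.β z‖ := by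
            rw [e]; exact norm_add_le _ _
        _ < 6 := by nlinarith
    refine ⟨min ε' ρ₁, _, hε, hsub5, hF, ?_⟩
    have hop : IsOpen (prodS (ball z₀ (min ε' ρ₁)) (ball w₀ s ∩ ball 0 ρ)) :=
      isOpen_prodS isOpen_ball (isOpen_ball.inter isOpen_ball)
    have hconv : Convex ℝ (prodS (ball z₀ (min ε' ρ₁)) (ball w₀ s ∩ ball 0 ρ)) :=
      convex_prodS (convex_ball _ _) ((convex_ball _ _).inter (convex_ball _ _))
    refine hIDM _ _ _ hconv.isPreconnected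
      (HoloOn_mono hF.1.1 hop (prodS_mono (subset_refl _) inter_subset_left))
      (HoloOn_mono hχ.1.1 hop (prodS_mono hsub5 inter_subset_right)) (pt z₀ w₀)
      (pt_mem (mem_ball_self hε) ⟨mem_ball_self hs0, hw₀⟩) ?_
    have hnh : prodS (ball z₀ (min ε' ρ₁)) (ball w₀ ρ₁) ∈ 𝓝 (pt z₀ w₀) :=
      (isOpen_prodS isOpen_ball isOpen_ball).mem_nhds
        (pt_mem (mem_ball_self hε) (mem_ball_self hρ₁))
    filter_upwards [hnh] with y hy
    have h1 := (hmap (base y) (hsub1 hy.1) (lc y) hy.2).2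
    rw [pt_base_lc] at h1
    show γ⁻¹ • ψ j (TM t y) = χ y
    have h2 : ψ j (TM t y) = γ • χ y := h1.symm
    rw [h2, inv_smul_smul]
  have hne : Nonempty (Cn (b + 1) → M) := ⟨χ⟩
  choose! ε F hε hεsub hspec hEq using hloc
  -- agreement on overlaps
  have hov : ∀ z₀ ∈ ball (0 : Cn b) 5, ∀ w₀ ∈ ball (0 : ℂ) ρ, ∀ z₁ ∈ ball (0 : Cn b) 5,
      ∀ w₁ ∈ ball (0 : ℂ) ρ, ∀ x ∈ prodS (ball z₀ (ε z₀ w₀)) (ball w₀ s),
      x ∈ prodS (ball z₁ (ε z₁ w₁)) (ball w₁ s) → F z₀ w₀ x = F z₁ w₁ x := by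
    intro z₀ hz₀ w₀ hw₀ z₁ hz₁ w₁ hw₁ x hx0 hx1
    have hop : IsOpen (prodS (ball z₀ (ε z₀ w₀) ∩ ball z₁ (ε z₁ w₁)) (ball w₀ s ∩ ball w₁ s)) :=
      isOpen_prodS (isOpen_ball.inter isOpen_ball) (isOpen_ball.inter isOpen_ball)
    have hconv : Convex ℝ
        (prodS (ball z₀ (ε z₀ w₀) ∩ ball z₁ (ε z₁ w₁)) (ball w₀ s ∩ ball w₁ s)) :=
      convex_prodS ((convex_ball _ _).inter (convex_ball _ _))
        ((convex_ball _ _).inter (convex_ball _ _))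
    have hd : ‖w₀ - w₁‖ < 2 * s := by
      have h1 : ‖lc x - w₀‖ < s := by simpa [dist_eq_norm] using hx0.2
      have h2 : ‖lc x - w₁‖ < s := by simpa [dist_eq_norm] using hx1.2
      have e : w₀ - w₁ = (lc x - w₁) - (lc x - w₀) := by ring
      rw [e]
      refine lt_of_le_of_lt (norm_sub_le _ _) (by linarith)
    have hmid : (w₀ + w₁) / 2 ∈ ball w₀ s ∩ ball w₁ s := by
      constructor
      · rw [mem_ball, dist_eq_norm]
        have e : (w₀ + w₁) / 2 - w₀ = -((w₀ - w₁) / 2) := by ring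
        rw [e, norm_neg, norm_div]
        have : ‖(2 : ℂ)‖ = 2 := by simp
        rw [this]
        linarith
      · rw [mem_ball, dist_eq_norm]
        have e : (w₀ + w₁) / 2 - w₁ = (w₀ - w₁) / 2 := by ring
        rw [e, norm_div]
        have : ‖(2 : ℂ)‖ = 2 := by simp
        rw [this]
        linarith
    have hmid2 : (w₀ + w₁) / 2 ∈ ball (0 : ℂ) ρ := by
      rw [mem_ball_zero_iff, norm_div]
      have : ‖(2 : ℂ)‖ = 2 := by simp
      rw [this]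
      have h1 : ‖w₀‖ < ρ := by simpa using hw₀
      have h2 : ‖w₁‖ < ρ := by simpa using hw₁
      have h3 := norm_add_le w₀ w₁
      linarith
    have hyb0 : base x ∈ ball z₀ (ε z₀ w₀) := hx0.1
    have hyb1 : base x ∈ ball z₁ (ε z₁ w₁) := hx1.1
    refine hIDM _ _ _ hconv.isPreconnected
      (HoloOn_mono (hspec z₀ hz₀ w₀ hw₀).1.1 hop (prodS_mono inter_subset_left inter_subset_left))
      (HoloOn_mono (hspec z₁ hz₁ w₁ hw₁).1.1 hop
        (prodS_mono inter_subset_right inter_subset_right)) (pt (base x) ((w₀ + w₁) / 2))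
      (pt_mem ⟨hyb0, hyb1⟩ hmid) ?_ ⟨⟨hx0.1, hx1.1⟩, ⟨hx0.2, hx1.2⟩⟩
    have hnh : prodS (ball z₀ (ε z₀ w₀) ∩ ball z₁ (ε z₁ w₁))
        ((ball w₀ s ∩ ball w₁ s) ∩ ball 0 ρ) ∈ 𝓝 (pt (base x) ((w₀ + w₁) / 2)) :=
      (isOpen_prodS (isOpen_ball.inter isOpen_ball)
        ((isOpen_ball.inter isOpen_ball).inter isOpen_ball)).mem_nhds
        (pt_mem ⟨hyb0, hyb1⟩ ⟨hmid, hmid2⟩)
    filter_upwards [hnh] with y hy
    rw [hEq z₀ hz₀ w₀ hw₀ ⟨hy.1.1, hy.2.1.1, hy.2.2⟩, hEq z₁ hz₁ w₁ hw₁ ⟨hy.1.2, hy.2.1.2, hy.2.2⟩]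
  -- the centre in the fibre
  have hρs : 0 < ρ + s := by linarith
  obtain ⟨ctr, hctr⟩ : ∃ ctr : ℂ → ℂ, ∀ w ∈ ball (0 : ℂ) (ρ + s), ctr w ∈ ball (0 : ℂ) ρ ∧
      w ∈ ball (ctr w) s := by
    refine ⟨fun w => ((ρ / (ρ + s) : ℝ) : ℂ) * w, fun w hw => ?_⟩
    have hw' : ‖w‖ < ρ + s := by simpa using hw
    have hq : 0 < ρ / (ρ + s) := by positivity
    constructor
    · rw [mem_ball_zero_iff, norm_mul, Complex.norm_real, Real.norm_eq_abs, abs_of_pos hq]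
      calc ρ / (ρ + s) * ‖w‖ < ρ / (ρ + s) * (ρ + s) := by gcongr
        _ = ρ := by field_simp
    · rw [mem_ball, dist_eq_norm]
      have e : w - ((ρ / (ρ + s) : ℝ) : ℂ) * w = ((s / (ρ + s) : ℝ) : ℂ) * w := by
        have h1 : ((ρ / (ρ + s) : ℝ) : ℂ) + ((s / (ρ + s) : ℝ) : ℂ) = 1 := by
          rw [← Complex.ofReal_add]
          norm_cast
          field_simp
        linear_combination (-w) * h1
      rw [e, norm_mul, Complex.norm_real, Real.norm_eq_abs, abs_of_pos (by positivity)]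
      calc s / (ρ + s) * ‖w‖ < s / (ρ + s) * (ρ + s) := by gcongr
        _ = s := by field_simp
  have hself : ∀ x ∈ prodS (ball (0 : Cn b) 5) (ball 0 (ρ + s)),
      x ∈ prodS (ball (base x) (ε (base x) (ctr (lc x)))) (ball (ctr (lc x)) s) := fun x hx =>
    ⟨mem_ball_self (hε _ hx.1 _ (hctr _ hx.2).1), (hctr _ hx.2).2⟩
  have hopD : IsOpen (prodS (ball (0 : Cn b) 5) (ball (0 : ℂ) (ρ + s))) :=
    isOpen_prodS isOpen_ball isOpen_ball
  have hnear : ∀ x₁ ∈ prodS (ball (0 : Cn b) 5) (ball 0 (ρ + s)),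
      (fun x => F (base x) (ctr (lc x)) x) =ᶠ[𝓝 x₁] F (base x₁) (ctr (lc x₁)) := by
    intro x₁ hx₁
    have h1 : prodS (ball (base x₁) (ε (base x₁) (ctr (lc x₁)))) (ball (ctr (lc x₁)) s) ∈ 𝓝 x₁ :=
      (isOpen_prodS isOpen_ball isOpen_ball).mem_nhds (hself x₁ hx₁)
    filter_upwards [h1, hopD.mem_nhds hx₁] with x hx hx2
    exact hov _ hx2.1 _ (hctr _ hx2.2).1 _ hx₁.1 _ (hctr _ hx₁.2).1 x (hself x hx2) hx
  refine ⟨fun x => F (base x) (ctr (lc x)) x, ⟨⟨⟨hopD, ?_⟩, ?_⟩, hχ.2.1, hχ.2.2.1, ?_⟩, ?_⟩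
  · intro x hx
    have hs := (hspec _ hx.1 _ (hctr _ hx.2).1).1.1
    have h1 := (hs.2 x (hself x hx)).mdifferentiableAt (hs.1.mem_nhds (hself x hx))
    exact (h1.congr_of_eventuallyEq (hnear x hx)).mdifferentiableWithinAt
  · intro x hx
    rw [jac_congr (hnear x hx)]
    exact (hspec _ hx.1 _ (hctr _ hx.2).1).1.2 x (hself x hx)
  · intro x hx
    have h1 := (hspec _ hx.1 _ (hctr _ hx.2).1).2.2.2 x (hself x hx)
    rw [← h1]
    unfold lpot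
    rw [jac_congr (hnear x hx)]
  · intro x hx
    have hx' : x ∈ prodS (ball (0 : Cn b) 5) (ball 0 (ρ + s)) :=
      prodS_mono (subset_refl _) (ball_subset_ball (by linarith)) hx
    exact hEq _ hx'.1 _ (hctr _ hx'.2).1 ⟨(hself x hx').1, (hself x hx').2, hx.2⟩

end Pool.Agent.Helper9.SP
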