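import Pool.Agent.Helper9.SP.ReglB

/-! # Packet SP-REGL: local regularity of weak solutions -/

open Complex Metric Set Filter Topology MeasureTheory
open scoped ContDiff ComplexConjugate ComplexOrder Manifold Convolution

namespace Pool.Agent.Helper9.SP

open Pool.Agent.Helper95.Lin Pool.Agent.Helper16.Abund Pool.Agent.Helper92.Orb
open Pool.Agent.Helper10.SP

variable {n : ℕ}

theorem norm_sub_sq_le (p q c : ℂ) : ‖p - q‖ ^ 2 ≤ 2 * ‖p - c‖ ^ 2 + 2 * ‖q - c‖ ^ 2 := by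
  have h1 : p - q = (p - c) - (q - c) := by ring
  have h2 : ‖p - q‖ ≤ ‖p - c‖ + ‖q - c‖ := by rw [h1]; exact norm_sub_le _ _
  have h3 := norm_nonneg (p - q)
  have h4 := norm_nonneg (p - c)
  have h5 := norm_nonneg (q - c)
  nlinarith [sq_nonneg (‖p - c‖ - ‖q - c‖)]

theorem norm_sum_sq_le (z : Fin n → ℂ) : ‖∑ k, z k‖ ^ 2 ≤ n * ∑ k, ‖z k‖ ^ 2 := by
  have h1 : ‖∑ k, z k‖ ≤ ∑ k, ‖z k‖ := norm_sum_le _ _
  have h2 : (∑ k, ‖z k‖) ^ 2 ≤ (Finset.univ : Finset (Fin n)).card * ∑ k, ‖z k‖ ^ 2 :=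
    sq_sum_le_card_mul_sum_sq
  rw [Finset.card_univ, Fintype.card_fin] at h2
  exact le_trans (pow_le_pow_left₀ (norm_nonneg _) h1 2) h2

/-- The commutator term. -/
noncomputable def Ph (f a : Cn n → ℂ) (ε : ℝ) (k : Fin n) (x : Cn n) : ℂ :=
  ∫ y, f y * cdb k (fun y' => (a y' - a x) * (mol n ε (x - y') : ℂ)) y

theorem Ph_contDiff {f a : Cn n → ℂ} (hf : LocallyIntegrable f) (ha : ContDiff ℝ ∞ a)
    (hac : HasCompactSupport a) {ε : ℝ} (hε : 0 < ε) (k : Fin n) : ContDiff ℝ ∞ (Ph f a ε k) := by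
  have hm := mc_contDiff (n := n) ε
  have hmc := mc_cs (n := n) hε
  have e : Ph f a ε k = fun x => Gp f a ε k x + a x * cv f (cdb k (mc n ε)) x := by
    funext x
    exact phi_eq hf ha hac hε k x
  rw [e]
  exact (Gp_contDiff hf ha hac hε k).add (ha.mul (cv_contDiff hf (cdb_contDiff hm k)
    (cdb_cs hmc k)))

theorem int_sq {f : Cn n → ℂ} (hf : MemLp f 2 volume) : Integrable fun x => ‖f x‖ ^ 2 :=
  (memLp_two_iff_integrable_sq_norm hf.1).1 hf

theorem regl (hWIRT : S_WIRT) (hMOL2 : S_MOL2) (hFRIE : S_FRIE) (hCACC : S_CACC) : S_REGL := by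
  intro n T A hT hA hPD f hf hw C hCT hC
  obtain ⟨χ, hχ, hχ0, hχ1, hχC⟩ := Pool.Agent.Helper45.Lin.exists_cutoff hT hC hCT
  have hK : IsCompact (tsupport χ) := hχ.2.1
  obtain ⟨δ, hδ, hδT⟩ := hK.exists_cthickening_subset_open hT hχ.2.2
  have hC1 : IsCompact (cthickening δ (tsupport χ)) := hK.cthickening
  obtain ⟨η, hη, hη0, hη1, hηC⟩ := Pool.Agent.Helper45.Lin.exists_cutoff hT hC1 hδT
  obtain ⟨f₁, hf₁⟩ : ∃ f₁ : Cn n → ℂ, f₁ = indicator (cthickening δ (tsupport χ)) f := ⟨_, rfl⟩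
  have hfC := hf _ hδT hC1
  have hf1 : MemLp f₁ 2 volume := by
    rw [hf₁]
    exact (memLp_indicator_iff_restrict hC1.measurableSet).2 hfC
  have hf1i : Integrable f₁ := by
    rw [hf₁, integrable_indicator_iff hC1.measurableSet]
    have : IsFiniteMeasure (volume.restrict (cthickening δ (tsupport χ))) :=
      ⟨by rw [Measure.restrict_apply_univ]; exact hC1.measure_lt_top⟩
    exact hfC.integrable one_le_two
  have hf1l := hf1i.locallyIntegrable
  obtain ⟨a, ha⟩ : ∃ a : Fin n → Fin n → Cn n → ℂ, a = fun k j y => (η y : ℂ) * A y k j :=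
    ⟨_, rfl⟩
  have hηc : ContDiff ℝ ∞ fun y => (η y : ℂ) := Complex.ofRealCLM.contDiff.comp hη.1
  have has : ∀ k j, ContDiff ℝ ∞ (a k j) := by
    intro k j
    rw [ha, contDiff_iff_contDiffAt]
    intro x
    by_cases hx : x ∈ T
    · exact hηc.contDiffAt.mul ((hA k j).contDiffAt (hT.mem_nhds hx))
    · have hx' : x ∉ tsupport η := fun h => hx (hη.2.2 h)
      have h0 := notMem_tsupport_iff_eventuallyEq.1 hx'
      refine (contDiffAt_const (c := (0 : ℂ))).congr_of_eventuallyEq ?_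
      filter_upwards [h0] with y hy
      rw [hy]
      simp
  have hac : ∀ k j, HasCompactSupport (a k j) := by
    intro k j
    rw [ha]
    exact (hη.2.1.comp_left (g := fun t : ℝ => (t : ℂ)) (by simp)).mul_right
  have hball : ∀ x ∈ tsupport χ, ball x δ ⊆ cthickening δ (tsupport χ) := fun x hx =>
    (ball_subset_thickening hx δ).trans (thickening_subset_cthickening _ _)
  have hag : ∀ x ∈ tsupport χ, ∀ k j, ∀ y ∈ ball x δ, a k j y = A y k j := by
    intro x hx k j y hy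
    rw [ha]
    show (η y : ℂ) * A y k j = A y k j
    rw [hηC y (hball x hx hy)]
    simp
  have hfg : ∀ x ∈ tsupport χ, ∀ y ∈ ball x δ, f₁ y = f y := by
    intro x hx y hy
    rw [hf₁, indicator_of_mem (hball x hx hy)]
  obtain ⟨hM1, hM2⟩ := hMOL2 f₁ hf1
  obtain ⟨B, hB⟩ := hCACC T A hT hA hPD χ hχ
  -- smoothness
  obtain ⟨FF, hFF⟩ : ∃ FF : ℝ → Cn n → Cn n, FF = fun ε x j => ∑ k, Ph f₁ (a k j) ε k x :=
    ⟨_, rfl⟩
  have hFFs : ∀ ε, 0 < ε → ContDiff ℝ ∞ (FF ε) := by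
    intro ε hε
    rw [hFF]
    exact contDiff_pi.2 fun j => ContDiff.sum fun k _ =>
      Ph_contDiff hf1l (has k j) (hac k j) hε k
  have heq : ∀ ε, 0 < ε → ε < δ → ∀ x ∈ tsupport χ,
      ∑ j, cd j (fun y => ∑ k, A y k j * cdb k (mollc f₁ ε) y) x =
        ∑ j, cd j (fun y => FF ε y j) x := by
    intro ε hε hεδ x hx
    have h1 : closedBall x ε ⊆ T :=
      ((closedBall_subset_ball hεδ).trans (hball x hx)).trans hδT
    have h2 := reg_eq hWIRT hw hf1l has hac hε h1 hεδ (hag x hx) (hfg x hx)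
    rw [hFF]
    exact h2
  -- the two error terms
  obtain ⟨r, hr⟩ : ∃ r : ℝ → ℝ, r = fun ε => ∫ x, ‖mollc f₁ ε x - f₁ x‖ ^ 2 := ⟨_, rfl⟩
  obtain ⟨R, hR⟩ : ∃ R : ℝ → ℝ, R = fun ε => ∑ j, ∑ k, ∫ x, ‖Ph f₁ (a k j) ε k x‖ ^ 2 :=
    ⟨_, rfl⟩
  have hrt : Tendsto r (𝓝[>] 0) (𝓝 0) := by rw [hr]; exact hM2
  have hRt : Tendsto R (𝓝[>] 0) (𝓝 0) := by
    rw [hR]
    have h1 : Tendsto (fun ε => ∑ j, ∑ k, ∫ x, ‖Ph f₁ (a k j) ε k x‖ ^ 2) (𝓝[>] 0)
        (𝓝 (∑ j : Fin n, ∑ k : Fin n, (0 : ℝ))) :=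
      tendsto_finsetSum _ fun j _ => tendsto_finsetSum _ fun k _ =>
        (hFRIE (a k j) f₁ (has k j) (hac k j) hf1 k).2
    simpa using h1
  have hPhm : ∀ ε, 0 < ε → ∀ k j, MemLp (Ph f₁ (a k j) ε k) 2 volume := fun ε hε k j =>
    (hFRIE (a k j) f₁ (has k j) (hac k j) hf1 k).1 ε hε
  -- the main estimate
  have hmain : ∀ ε, 0 < ε → ε < δ → ∀ ε', 0 < ε' → ε' < δ →
      ∫ x in C, ∑ l, ‖cdb l (mollc f₁ ε) x - cdb l (mollc f₁ ε') x‖ ^ 2 ≤
        |B| * (2 * r ε + 2 * n * R ε) + |B| * (2 * r ε' + 2 * n * R ε') := by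
    intro ε hε hεδ ε' hε' hεδ'
    have hu := (hM1 ε hε).1
    have hu' := (hM1 ε' hε').1
    have hus : ContDiff ℝ ∞ (fun y => mollc f₁ ε y - mollc f₁ ε' y) := hu.sub hu'
    have hcd : ∀ l x, cdb l (fun y => mollc f₁ ε y - mollc f₁ ε' y) x =
        cdb l (mollc f₁ ε) x - cdb l (mollc f₁ ε') x := fun l x =>
      cdb_sub (dAt hu x) (dAt hu' x) l
    have key := hB (fun y => mollc f₁ ε y - mollc f₁ ε' y) (fun y => FF ε y - FF ε' y)
      hus.contDiffOn ((hFFs ε hε).sub (hFFs ε' hε')).contDiffOn ?_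
    · have i1 : Integrable fun x => 2 * ‖mollc f₁ ε x - f₁ x‖ ^ 2 :=
        (int_sq ((hM1 ε hε).2.1.sub hf1)).const_mul 2
      have i2 : Integrable fun x => 2 * ‖mollc f₁ ε' x - f₁ x‖ ^ 2 :=
        (int_sq ((hM1 ε' hε').2.1.sub hf1)).const_mul 2
      have m2 : ∫ x in tsupport χ, ‖mollc f₁ ε x - mollc f₁ ε' x‖ ^ 2 ≤ 2 * r ε + 2 * r ε' := by
        calc ∫ x in tsupport χ, ‖mollc f₁ ε x - mollc f₁ ε' x‖ ^ 2
            ≤ ∫ x in tsupport χ, (2 * ‖mollc f₁ ε x - f₁ x‖ ^ 2 +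
                2 * ‖mollc f₁ ε' x - f₁ x‖ ^ 2) := by
              refine integral_mono_of_nonneg (Eventually.of_forall fun x => by positivity)
                (i1.add i2).integrableOn (Eventually.of_forall fun x => ?_)
              exact norm_sub_sq_le _ _ _
          _ ≤ ∫ x, (2 * ‖mollc f₁ ε x - f₁ x‖ ^ 2 + 2 * ‖mollc f₁ ε' x - f₁ x‖ ^ 2) :=
              setIntegral_le_integral (i1.add i2) (Eventually.of_forall fun x => by
                show (0 : ℝ) ≤ _
                positivity)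
          _ = 2 * r ε + 2 * r ε' := by
              rw [integral_add i1 i2, integral_const_mul, integral_const_mul, hr]
      have j1 : ∀ ε, 0 < ε → ∀ j k, Integrable fun x => ‖Ph f₁ (a k j) ε k x‖ ^ 2 :=
        fun ε hε j k => int_sq (hPhm ε hε k j)
      have j2 : ∀ ε, 0 < ε → Integrable fun x =>
          2 * (n : ℝ) * ∑ j, ∑ k, ‖Ph f₁ (a k j) ε k x‖ ^ 2 := fun ε hε =>
        (integrable_finset_sum _ fun j _ => integrable_finset_sum _ fun k _ =>
          j1 ε hε j k).const_mul _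
      have j3 : ∀ ε, 0 < ε → ∫ x, 2 * (n : ℝ) * ∑ j, ∑ k, ‖Ph f₁ (a k j) ε k x‖ ^ 2 =
          2 * n * R ε := by
        intro ε hε
        rw [integral_const_mul, integral_finset_sum _ fun j _ => integrable_finset_sum _ fun k _ =>
          j1 ε hε j k, hR]
        congr 1
        refine Finset.sum_congr rfl fun j _ => ?_
        rw [integral_finset_sum _ fun k _ => j1 ε hε j k]
      have m3 : ∫ x in tsupport χ, ∑ j, ‖(FF ε x - FF ε' x) j‖ ^ 2 ≤
          2 * n * R ε + 2 * n * R ε' := by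
        calc ∫ x in tsupport χ, ∑ j, ‖(FF ε x - FF ε' x) j‖ ^ 2
            ≤ ∫ x in tsupport χ, (2 * (n : ℝ) * ∑ j, ∑ k, ‖Ph f₁ (a k j) ε k x‖ ^ 2 +
                2 * (n : ℝ) * ∑ j, ∑ k, ‖Ph f₁ (a k j) ε' k x‖ ^ 2) := by
              refine integral_mono_of_nonneg (Eventually.of_forall fun x => by positivity)
                ((j2 ε hε).add (j2 ε' hε')).integrableOn (Eventually.of_forall fun x => ?_)
              show ∑ j, ‖(FF ε x - FF ε' x) j‖ ^ 2 ≤
                2 * (n : ℝ) * ∑ j, ∑ k, ‖Ph f₁ (a k j) ε k x‖ ^ 2 +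
                  2 * (n : ℝ) * ∑ j, ∑ k, ‖Ph f₁ (a k j) ε' k x‖ ^ 2
              rw [Finset.mul_sum, Finset.mul_sum, ← Finset.sum_add_distrib]
              refine Finset.sum_le_sum fun j _ => ?_
              have e1 : (FF ε x - FF ε' x) j = ∑ k, Ph f₁ (a k j) ε k x -
                  ∑ k, Ph f₁ (a k j) ε' k x := by rw [hFF]; rfl
              rw [e1]
              have h1 := norm_sub_sq_le (∑ k, Ph f₁ (a k j) ε k x) (∑ k, Ph f₁ (a k j) ε' k x) 0
              rw [sub_zero, sub_zero] at h1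
              have h2 := norm_sum_sq_le (fun k => Ph f₁ (a k j) ε k x)
              have h3 := norm_sum_sq_le (fun k => Ph f₁ (a k j) ε' k x)
              linarith
          _ ≤ ∫ x, (2 * (n : ℝ) * ∑ j, ∑ k, ‖Ph f₁ (a k j) ε k x‖ ^ 2 +
                2 * (n : ℝ) * ∑ j, ∑ k, ‖Ph f₁ (a k j) ε' k x‖ ^ 2) :=
              setIntegral_le_integral ((j2 ε hε).add (j2 ε' hε')) (Eventually.of_forall fun x => by
                show (0 : ℝ) ≤ _
                positivity)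
          _ = 2 * n * R ε + 2 * n * R ε' := by
              rw [integral_add (j2 ε hε) (j2 ε' hε'), j3 ε hε, j3 ε' hε']
      have m1 : ∫ x in C, ∑ l, ‖cdb l (mollc f₁ ε) x - cdb l (mollc f₁ ε') x‖ ^ 2 ≤
          ∫ x in T, χ x ^ 2 * ∑ k, ‖cdb k (fun y => mollc f₁ ε y - mollc f₁ ε' y) x‖ ^ 2 := by
        have hcont : Continuous fun x => χ x ^ 2 *
            ∑ k, ‖cdb k (fun y => mollc f₁ ε y - mollc f₁ ε' y) x‖ ^ 2 :=
          (hχ.1.continuous.pow 2).mul (continuous_finset_sum _ fun k _ =>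
            ((cdb_contDiff hus k).continuous.norm.pow 2))
        have hcs : HasCompactSupport fun x => χ x ^ 2 *
            ∑ k, ‖cdb k (fun y => mollc f₁ ε y - mollc f₁ ε' y) x‖ ^ 2 :=
          (hχ.2.1.comp_left (g := fun t : ℝ => t ^ 2) (by simp)).mul_right
        have hint : Integrable (fun x => χ x ^ 2 *
            ∑ k, ‖cdb k (fun y => mollc f₁ ε y - mollc f₁ ε' y) x‖ ^ 2) volume :=
          hcont.integrable_of_hasCompactSupport hcs
        have e1 : ∫ x in C, ∑ l, ‖cdb l (mollc f₁ ε) x - cdb l (mollc f₁ ε') x‖ ^ 2 =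
            ∫ x in C, χ x ^ 2 *
              ∑ k, ‖cdb k (fun y => mollc f₁ ε y - mollc f₁ ε' y) x‖ ^ 2 := by
          refine setIntegral_congr_fun hC.measurableSet fun x hx => ?_
          show _ = χ x ^ 2 * _
          rw [hχC x hx, one_pow, one_mul]
          exact Finset.sum_congr rfl fun l _ => by rw [hcd]
        rw [e1]
        refine setIntegral_mono_set hint.integrableOn ?_ (HasSubset.Subset.eventuallyLE hCT)
        exact Eventually.of_forall fun x => by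
          show (0 : ℝ) ≤ _
          positivity
      have hn1 : 0 ≤ ∫ x in tsupport χ, ‖mollc f₁ ε x - mollc f₁ ε' x‖ ^ 2 :=
        integral_nonneg fun x => by positivity
      have hn2 : 0 ≤ ∫ x in tsupport χ, ∑ j, ‖(FF ε x - FF ε' x) j‖ ^ 2 :=
        integral_nonneg fun x => by positivity
      calc _ ≤ _ := m1
        _ ≤ B * ((∫ x in tsupport χ, ‖mollc f₁ ε x - mollc f₁ ε' x‖ ^ 2) +
              ∫ x in tsupport χ, ∑ j, ‖(FF ε x - FF ε' x) j‖ ^ 2) := key
        _ ≤ |B| * ((∫ x in tsupport χ, ‖mollc f₁ ε x - mollc f₁ ε' x‖ ^ 2) +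
              ∫ x in tsupport χ, ∑ j, ‖(FF ε x - FF ε' x) j‖ ^ 2) := by
            gcongr
            exact le_abs_self B
        _ ≤ |B| * ((2 * r ε + 2 * r ε') + (2 * n * R ε + 2 * n * R ε')) := by gcongr
        _ = _ := by ring
    · intro x hx
      have hxT := hχ.2.2 hx
      have hAd : ∀ k j, DifferentiableAt ℝ (fun y => A y k j) x := fun k j =>
        ((hA k j).contDiffAt (hT.mem_nhds hxT)).differentiableAt (by simp)
      have hsd : ∀ ε, 0 < ε → ∀ j, DifferentiableAt ℝ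
          (fun y => ∑ k, A y k j * cdb k (mollc f₁ ε) y) x := fun ε hε j =>
        DifferentiableAt.fun_sum fun k _ => (hAd k j).mul (dAt (cdb_contDiff (hM1 ε hε).1 k) x)
      have e1 : ∀ j, cd j (fun y => ∑ k, A y k j *
          cdb k (fun y => mollc f₁ ε y - mollc f₁ ε' y) y) x =
          cd j (fun y => ∑ k, A y k j * cdb k (mollc f₁ ε) y) x -
            cd j (fun y => ∑ k, A y k j * cdb k (mollc f₁ ε') y) x := by
        intro j
        rw [← cd_sub (hsd ε hε j) (hsd ε' hε' j)]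
        congr 1
        funext y
        rw [← Finset.sum_sub_distrib]
        exact Finset.sum_congr rfl fun k _ => by rw [hcd, mul_sub]
      have e2 : ∀ j, cd j (fun y => (FF ε y - FF ε' y) j) x =
          cd j (fun y => FF ε y j) x - cd j (fun y => FF ε' y j) x := by
        intro j
        exact cd_sub (dAt (contDiff_pi.1 (hFFs ε hε) j) x) (dAt (contDiff_pi.1 (hFFs ε' hε') j) x) j
      simp only [e1, e2, Finset.sum_sub_distrib]
      rw [heq ε hε hεδ x hx, heq ε' hε' hεδ' x hx]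
  -- the sequence
  have hseq : Tendsto (fun j : ℕ => 1 / ((j : ℝ) + 1)) atTop (𝓝[>] 0) := by
    refine tendsto_nhdsWithin_iff.2 ⟨tendsto_one_div_add_atTop_nhds_zero_nat, ?_⟩
    exact Eventually.of_forall fun j => by
      show (0 : ℝ) < _
      positivity
  have hpos : ∀ j : ℕ, 0 < 1 / ((j : ℝ) + 1) := fun j => by positivity
  refine ⟨fun j => mollc f₁ (1 / ((j : ℝ) + 1)), fun j => (hM1 _ (hpos j)).1, ?_, ?_⟩
  · have hub : Tendsto (fun j : ℕ => r (1 / ((j : ℝ) + 1))) atTop (𝓝 0) := hrt.comp hseq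
    refine squeeze_zero (fun j => integral_nonneg fun x => by positivity) (fun j => ?_) hub
    have hCK : C ⊆ cthickening δ (tsupport χ) := by
      intro x hx
      refine self_subset_cthickening _ (subset_tsupport _ ?_)
      rw [Function.mem_support, hχC x hx]
      exact one_ne_zero
    have e1 : ∫ x in C, ‖mollc f₁ (1 / ((j : ℝ) + 1)) x - f x‖ ^ 2 =
        ∫ x in C, ‖mollc f₁ (1 / ((j : ℝ) + 1)) x - f₁ x‖ ^ 2 := by
      refine setIntegral_congr_fun hC.measurableSet fun x hx => ?_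
      show _ = ‖_ - f₁ x‖ ^ 2
      rw [hf₁, indicator_of_mem (hCK hx)]
    rw [e1, hr]
    exact setIntegral_le_integral (int_sq ((hM1 _ (hpos j)).2.1.sub hf1))
      (Eventually.of_forall fun x => by
        show (0 : ℝ) ≤ _
        positivity)
  · intro e he
    have hs : Tendsto (fun ε => |B| * (2 * r ε + 2 * n * R ε)) (𝓝[>] 0) (𝓝 0) := by
      have h1 := ((hrt.const_mul 2).add (hRt.const_mul (2 * (n : ℝ)))).const_mul |B|
      simpa using h1
    have hev : ∀ᶠ j : ℕ in atTop, |B| * (2 * r (1 / ((j : ℝ) + 1)) +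
        2 * n * R (1 / ((j : ℝ) + 1))) < e / 2 ∧ 1 / ((j : ℝ) + 1) < δ := by
      have h1 : ∀ᶠ ε in 𝓝[>] (0 : ℝ), |B| * (2 * r ε + 2 * n * R ε) < e / 2 :=
        hs.eventually_lt_const (by linarith)
      have h2 : ∀ᶠ ε in 𝓝[>] (0 : ℝ), ε < δ :=
        eventually_nhdsWithin_of_eventually_nhds (eventually_lt_nhds hδ)
      exact hseq.eventually (h1.and h2)
    obtain ⟨J, hJ⟩ := eventually_atTop.1 hev
    refine ⟨J, fun i hi j hj => ?_⟩
    obtain ⟨hi1, hi2⟩ := hJ i hi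
    obtain ⟨hj1, hj2⟩ := hJ j hj
    have := hmain _ (hpos i) hi2 _ (hpos j) hj2
    linarith

end Pool.Agent.Helper9.SP
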