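import Pool.Agent.Helper10.SP.GoalsI
import Pool.Agent.Helper53.SP.RescA

/-! # Packet SP-VTAU: generators act on the period map by real quadratic polynomials -/

open Complex Metric Set Filter Topology MeasureTheory
open scoped ContDiff ComplexConjugate ComplexOrder Manifold

namespace Pool.Agent.Helper9.SP

open Pool.Agent.Helper95.Lin Pool.Agent.Helper16.Abund Pool.Agent.Helper92.Orb
open Pool.Agent.Helper10.SP

/-! ## Quadratic interpolation -/

/-- Leading coefficient of the quadratic interpolation polynomial. -/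
noncomputable def Lr (x y z u v w : ℂ) : ℂ :=
  u / ((x - y) * (x - z)) - v / ((x - y) * (y - z)) + w / ((x - z) * (y - z))

/-- Middle coefficient of the quadratic interpolation polynomial. -/
noncomputable def Lq (x y z u v w : ℂ) : ℂ :=
  -(u * (y + z) / ((x - y) * (x - z)) - v * (x + z) / ((x - y) * (y - z)) +
    w * (x + y) / ((x - z) * (y - z)))

/-- Constant coefficient of the quadratic interpolation polynomial. -/
noncomputable def Lp (x y z u v w : ℂ) : ℂ :=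
  u * (y * z) / ((x - y) * (x - z)) - v * (x * z) / ((x - y) * (y - z)) +
    w * (x * y) / ((x - z) * (y - z))

theorem interp {x y z u v w p q r : ℂ} (hxy : x ≠ y) (hxz : x ≠ z) (hyz : y ≠ z)
    (hu : u = p + q * x + r * x ^ 2) (hv : v = p + q * y + r * y ^ 2)
    (hw : w = p + q * z + r * z ^ 2) :
    Lr x y z u v w = r ∧ Lq x y z u v w = q ∧ Lp x y z u v w = p := by
  have h1 : x - y ≠ 0 := sub_ne_zero.2 hxy
  have h2 : x - z ≠ 0 := sub_ne_zero.2 hxz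
  have h3 : y - z ≠ 0 := sub_ne_zero.2 hyz
  subst hu hv hw
  refine ⟨?_, ?_, ?_⟩
  · unfold Lr
    field_simp
    ring
  · unfold Lq
    field_simp
    ring
  · unfold Lp
    field_simp
    ring

theorem tendsto_Lr {X Y Z U V W : ℕ → ℂ} {x y z u v w : ℂ} (hxy : x ≠ y) (hxz : x ≠ z)
    (hyz : y ≠ z) (hX : Tendsto X atTop (𝓝 x)) (hY : Tendsto Y atTop (𝓝 y))
    (hZ : Tendsto Z atTop (𝓝 z)) (hU : Tendsto U atTop (𝓝 u)) (hV : Tendsto V atTop (𝓝 v))
    (hW : Tendsto W atTop (𝓝 w)) :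
    Tendsto (fun n => Lr (X n) (Y n) (Z n) (U n) (V n) (W n)) atTop (𝓝 (Lr x y z u v w)) := by
  have h1 : x - y ≠ 0 := sub_ne_zero.2 hxy
  have h2 : x - z ≠ 0 := sub_ne_zero.2 hxz
  have h3 : y - z ≠ 0 := sub_ne_zero.2 hyz
  unfold Lr
  exact ((hU.div ((hX.sub hY).mul (hX.sub hZ)) (mul_ne_zero h1 h2)).sub
    (hV.div ((hX.sub hY).mul (hY.sub hZ)) (mul_ne_zero h1 h3))).add
    (hW.div ((hX.sub hZ).mul (hY.sub hZ)) (mul_ne_zero h2 h3))

theorem tendsto_Lq {X Y Z U V W : ℕ → ℂ} {x y z u v w : ℂ} (hxy : x ≠ y) (hxz : x ≠ z)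
    (hyz : y ≠ z) (hX : Tendsto X atTop (𝓝 x)) (hY : Tendsto Y atTop (𝓝 y))
    (hZ : Tendsto Z atTop (𝓝 z)) (hU : Tendsto U atTop (𝓝 u)) (hV : Tendsto V atTop (𝓝 v))
    (hW : Tendsto W atTop (𝓝 w)) :
    Tendsto (fun n => Lq (X n) (Y n) (Z n) (U n) (V n) (W n)) atTop (𝓝 (Lq x y z u v w)) := by
  have h1 : x - y ≠ 0 := sub_ne_zero.2 hxy
  have h2 : x - z ≠ 0 := sub_ne_zero.2 hxz
  have h3 : y - z ≠ 0 := sub_ne_zero.2 hyz
  unfold Lq
  exact ((((hU.mul (hY.add hZ)).div ((hX.sub hY).mul (hX.sub hZ)) (mul_ne_zero h1 h2)).sub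
    ((hV.mul (hX.add hZ)).div ((hX.sub hY).mul (hY.sub hZ)) (mul_ne_zero h1 h3))).add
    ((hW.mul (hX.add hY)).div ((hX.sub hZ).mul (hY.sub hZ)) (mul_ne_zero h2 h3))).neg

theorem tendsto_Lp {X Y Z U V W : ℕ → ℂ} {x y z u v w : ℂ} (hxy : x ≠ y) (hxz : x ≠ z)
    (hyz : y ≠ z) (hX : Tendsto X atTop (𝓝 x)) (hY : Tendsto Y atTop (𝓝 y))
    (hZ : Tendsto Z atTop (𝓝 z)) (hU : Tendsto U atTop (𝓝 u)) (hV : Tendsto V atTop (𝓝 v))
    (hW : Tendsto W atTop (𝓝 w)) :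
    Tendsto (fun n => Lp (X n) (Y n) (Z n) (U n) (V n) (W n)) atTop (𝓝 (Lp x y z u v w)) := by
  have h1 : x - y ≠ 0 := sub_ne_zero.2 hxy
  have h2 : x - z ≠ 0 := sub_ne_zero.2 hxz
  have h3 : y - z ≠ 0 := sub_ne_zero.2 hyz
  unfold Lp
  exact (((hU.mul (hY.mul hZ)).div ((hX.sub hY).mul (hX.sub hZ)) (mul_ne_zero h1 h2)).sub
    ((hV.mul (hX.mul hZ)).div ((hX.sub hY).mul (hY.sub hZ)) (mul_ne_zero h1 h3))).add
    ((hW.mul (hX.mul hY)).div ((hX.sub hZ).mul (hY.sub hZ)) (mul_ne_zero h2 h3))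

theorem real_lim {f : ℕ → ℝ} {z : ℂ} (h : Tendsto (fun n => (f n : ℂ)) atTop (𝓝 z)) :
    ∃ r : ℝ, z = r := by
  refine ⟨z.re, Complex.ext rfl ?_⟩
  have h1 : Tendsto (fun n => ((f n : ℂ)).im) atTop (𝓝 z.im) :=
    (Complex.continuous_im.tendsto z).comp h
  have h2 : Tendsto (fun n => ((f n : ℂ)).im) atTop (𝓝 0) := by
    simp
  rw [tendsto_nhds_unique h1 h2]
  simp

/-- Limits of Möbius transformations near the identity. -/
theorem quad_lim {α β γ δ σ : ℕ → ℝ} (hσ : ∀ n, 0 < σ n)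
    (hdet : ∀ᶠ n in atTop, 0 < α n * δ n - β n * γ n)
    {X : Fin 3 → ℕ → ℂ} {x v : Fin 3 → ℂ} (h01 : x 0 ≠ x 1) (h02 : x 0 ≠ x 2) (h12 : x 1 ≠ x 2)
    (hX : ∀ k, Tendsto (X k) atTop (𝓝 (x k)))
    (hD : ∀ k, Tendsto (fun n => (X k n - x k) / (σ n : ℂ)) atTop (𝓝 (v k)))
    (hrel : ∀ k, ∀ᶠ n in atTop, x k * (α n + γ n * X k n) = β n + δ n * X k n) :
    ∃ p q r : ℝ, ∀ (Y : ℕ → ℂ) (y w : ℂ), Tendsto Y atTop (𝓝 y) →
      Tendsto (fun n => (Y n - y) / (σ n : ℂ)) atTop (𝓝 w) →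
      (∀ᶠ n in atTop, y * (α n + γ n * Y n) = β n + δ n * Y n) → w = p + q * y + r * y ^ 2 := by
  have hσc : ∀ n, (σ n : ℂ) ≠ 0 := fun n => by exact_mod_cast (hσ n).ne'
  -- distinctness for large n
  have hne : ∀ {Y Z : ℕ → ℂ} {y z : ℂ}, y ≠ z → Tendsto Y atTop (𝓝 y) → Tendsto Z atTop (𝓝 z) →
      ∀ᶠ n in atTop, Y n ≠ Z n := by
    intro Y Z y z hyz hY hZ
    have h1 : Tendsto (fun n => Y n - Z n) atTop (𝓝 (y - z)) := hY.sub hZ
    filter_upwards [h1.eventually_ne (sub_ne_zero.2 hyz)] with n hn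
    exact sub_ne_zero.1 hn
  have star : ∀ {a b c d X x : ℂ}, x * (a + c * X) = b + d * X →
      (a + c * X) * (X - x) = -b + (a - d) * X + c * X ^ 2 := by
    intro a b c d X x h
    linear_combination -h
  have hd0 : ∀ k, Tendsto (fun n => X k n - x k) atTop (𝓝 0) := by
    intro k
    have := (hX k).sub_const (x k)
    rwa [sub_self] at this
  obtain ⟨A, hA⟩ : ∃ A : ℕ → ℂ, A = fun n => Lr (X 0 n) (X 1 n) (X 2 n) (X 0 n - x 0)
    (X 1 n - x 1) (X 2 n - x 2) := ⟨_, rfl⟩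
  obtain ⟨B, hB⟩ : ∃ B : ℕ → ℂ, B = fun n => Lr (X 0 n) (X 1 n) (X 2 n) (X 0 n * (X 0 n - x 0))
    (X 1 n * (X 1 n - x 1)) (X 2 n * (X 2 n - x 2)) := ⟨_, rfl⟩
  have hA0 : Tendsto A atTop (𝓝 0) := by
    have := tendsto_Lr h01 h02 h12 (hX 0) (hX 1) (hX 2) (hd0 0) (hd0 1) (hd0 2)
    rw [hA]
    simpa [Lr] using this
  have hB0 : Tendsto B atTop (𝓝 0) := by
    have := tendsto_Lr h01 h02 h12 (hX 0) (hX 1) (hX 2) ((hX 0).mul (hd0 0))
      ((hX 1).mul (hd0 1)) ((hX 2).mul (hd0 2))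
    rw [hB]
    simpa [Lr] using this
  have hB1 : ∀ᶠ n in atTop, 1 - B n ≠ 0 := by
    have h1 : Tendsto (fun n => 1 - B n) atTop (𝓝 (1 - 0)) := hB0.const_sub 1
    exact h1.eventually_ne (by simp)
  have hrel3 : ∀ᶠ n in atTop, ∀ k, x k * (α n + γ n * X k n) = β n + δ n * X k n :=
    eventually_all.2 hrel
  have hgam : ∀ᶠ n in atTop, (γ n : ℂ) * (1 - B n) = α n * A n := by
    filter_upwards [hrel3, hne h01 (hX 0) (hX 1), hne h02 (hX 0) (hX 2),
      hne h12 (hX 1) (hX 2)] with n hr n1 n2 n3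
    have h1 := (interp n1 n2 n3 (star (hr 0)) (star (hr 1)) (star (hr 2))).1
    have h2 : Lr (X 0 n) (X 1 n) (X 2 n) ((α n + γ n * X 0 n) * (X 0 n - x 0))
        ((α n + γ n * X 1 n) * (X 1 n - x 1)) ((α n + γ n * X 2 n) * (X 2 n - x 2)) =
        α n * A n + γ n * B n := by
      rw [hA, hB]
      unfold Lr
      ring
    rw [h2] at h1
    linear_combination -h1
  have hα : ∀ᶠ n in atTop, α n ≠ 0 := by
    filter_upwards [hgam, hB1, hdet] with n h1 h2 h3 h4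
    rw [h4] at h1 h3
    have h5 : (γ n : ℂ) = 0 := by
      rcases mul_eq_zero.1 (show (γ n : ℂ) * (1 - B n) = 0 by rw [h1]; simp) with h | h
      · exact h
      · exact absurd h h2
    have h6 : γ n = 0 := by exact_mod_cast h5
    rw [h6] at h3
    simp at h3
  have hg0 : Tendsto (fun n => (γ n : ℂ) / α n) atTop (𝓝 0) := by
    have h1 : Tendsto (fun n => A n / (1 - B n)) atTop (𝓝 (0 / (1 - 0))) :=
      hA0.div (hB0.const_sub 1) (by simp)
    rw [zero_div] at h1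
    refine h1.congr' ?_
    filter_upwards [hgam, hB1, hα] with n h1 h2 h3
    have h3' : (α n : ℂ) ≠ 0 := by exact_mod_cast h3
    rw [div_eq_div_iff h2 h3']
    linear_combination -h1
  -- the rescaled relation
  have key : ∀ (Y : ℕ → ℂ) (y : ℂ), (∀ᶠ n in atTop, y * (α n + γ n * Y n) = β n + δ n * Y n) →
      ∀ᶠ n in atTop, (1 + (γ n : ℂ) / α n * Y n) * ((Y n - y) / σ n) =
        ((-β n / (α n * σ n) : ℝ) : ℂ) + (((α n - δ n) / (α n * σ n) : ℝ) : ℂ) * Y n +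
          ((γ n / (α n * σ n) : ℝ) : ℂ) * Y n ^ 2 := by
    intro Y y h
    filter_upwards [h, hα] with n h1 h2
    have h3 : (α n : ℂ) ≠ 0 := by exact_mod_cast h2
    have h4 := star h1
    have h5 := hσc n
    push_cast
    have e1 : (1 + (γ n : ℂ) / α n * Y n) * ((Y n - y) / σ n) =
        ((α n + γ n * Y n) * (Y n - y)) / (α n * σ n) := by
      field_simp
    rw [e1, h4]
    field_simp
  have hW : ∀ (Y : ℕ → ℂ) (y w : ℂ), Tendsto Y atTop (𝓝 y) →
      Tendsto (fun n => (Y n - y) / (σ n : ℂ)) atTop (𝓝 w) →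
      Tendsto (fun n => (1 + (γ n : ℂ) / α n * Y n) * ((Y n - y) / σ n)) atTop (𝓝 w) := by
    intro Y y w hY hw
    have := ((hg0.mul hY).const_add 1).mul hw
    simpa using this
  obtain ⟨W, hWd⟩ : ∃ W : Fin 3 → ℕ → ℂ, W = fun k n => (1 + (γ n : ℂ) / α n * X k n) *
    ((X k n - x k) / σ n) := ⟨_, rfl⟩
  have hWl : ∀ k, Tendsto (W k) atTop (𝓝 (v k)) := by
    intro k
    rw [hWd]
    exact hW (X k) (x k) (v k) (hX k) (hD k)
  have hint : ∀ᶠ n in atTop,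
      Lr (X 0 n) (X 1 n) (X 2 n) (W 0 n) (W 1 n) (W 2 n) = ((γ n / (α n * σ n) : ℝ) : ℂ) ∧
      Lq (X 0 n) (X 1 n) (X 2 n) (W 0 n) (W 1 n) (W 2 n) =
        (((α n - δ n) / (α n * σ n) : ℝ) : ℂ) ∧
      Lp (X 0 n) (X 1 n) (X 2 n) (W 0 n) (W 1 n) (W 2 n) = ((-β n / (α n * σ n) : ℝ) : ℂ) := by
    filter_upwards [key (X 0) (x 0) (hrel 0), key (X 1) (x 1) (hrel 1), key (X 2) (x 2) (hrel 2),
      hne h01 (hX 0) (hX 1), hne h02 (hX 0) (hX 2), hne h12 (hX 1) (hX 2)] with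
      n k0 k1 k2 n1 n2 n3
    rw [hWd]
    exact interp n1 n2 n3 k0 k1 k2
  have hr := (tendsto_Lr h01 h02 h12 (hX 0) (hX 1) (hX 2) (hWl 0) (hWl 1) (hWl 2)).congr'
    (hint.mono fun n h => h.1)
  have hq := (tendsto_Lq h01 h02 h12 (hX 0) (hX 1) (hX 2) (hWl 0) (hWl 1) (hWl 2)).congr'
    (hint.mono fun n h => h.2.1)
  have hp := (tendsto_Lp h01 h02 h12 (hX 0) (hX 1) (hX 2) (hWl 0) (hWl 1) (hWl 2)).congr'
    (hint.mono fun n h => h.2.2)
  obtain ⟨r, er⟩ := real_lim hr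
  obtain ⟨q, eq⟩ := real_lim hq
  obtain ⟨p, ep⟩ := real_lim hp
  rw [er] at hr
  rw [eq] at hq
  rw [ep] at hp
  refine ⟨p, q, r, fun Y y w hY hw hrelY => ?_⟩
  have l1 := (hW Y y w hY hw).congr' (key Y y hrelY)
  have l2 := (hp.add (hq.mul hY)).add (hr.mul (hY.pow 2))
  exact tendsto_nhds_unique l1 l2

/-! ## The theorem -/

theorem vtau : S_VTAU := by
  intro b N c R P Φ C hF lam hL i V hV
  obtain ⟨hVd, t, σ, hP, hσ, hσ0, hlim⟩ := hV
  obtain ⟨B, hB, hBb⟩ := hL.bdd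
  have hB3 : ball (c i) 3 ⊆ Bd c 3 := fun z hz => mem_iUnion.2 ⟨i, hz⟩
  have h0 : ∀ z ∈ Bd c 3, lam 0 z ≠ 0 := by
    intro z hz h
    have h1 := (hBb z hz).2
    rw [h] at h1
    simp at h1
    linarith
  have hτd : DifferentiableOn ℂ (tau lam) (Bd c 3) := by
    have h1 : DifferentiableOn ℂ (fun z => lam 1 z * (lam 0 z)⁻¹) (Bd c 3) := fun z hz =>
      (hL.holo 1 z hz).mul ((hL.holo 0 z hz).fun_inv (h0 z hz))
    exact h1.congr fun z _ => div_eq_mul_inv _ _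
  have hτa : ∀ z ∈ ball (c i) 3, DifferentiableAt ℂ (tau lam) z := fun z hz =>
    (hτd.mono hB3).differentiableAt (isOpen_ball.mem_nhds hz)
  have hσc : ∀ n, (σ n : ℂ) ≠ 0 := fun n => by exact_mod_cast (hσ n).ne'
  have hci : c i ∈ ball (c i) 3 := mem_ball_self (by norm_num)
  have hgl : ∀ z ∈ ball (c i) 3,
      Tendsto (fun n => ((σ n : ℂ))⁻¹ • ((t n).g z - z)) atTop (𝓝 (V z)) := by
    intro z hz
    rw [Metric.tendsto_nhds]
    intro ε hε
    filter_upwards [hlim (ε / 2) (half_pos hε)] with n hn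
    have h1 := hn z hz
    have h2 := hσ n
    have e1 : ((σ n : ℂ))⁻¹ • ((t n).g z - z) - V z =
        ((σ n : ℂ))⁻¹ • ((t n).g z - z - (σ n : ℂ) • V z) := by
      rw [smul_sub _ ((t n).g z - z), smul_smul, inv_mul_cancel₀ (hσc n), one_smul]
    rw [dist_eq_norm, e1, norm_smul, norm_inv, Complex.norm_real, Real.norm_of_nonneg h2.le]
    calc (σ n)⁻¹ * ‖(t n).g z - z - (σ n : ℂ) • V z‖ ≤ (σ n)⁻¹ * (ε / 2 * σ n) := by gcongr
      _ = ε / 2 := by field_simp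
      _ < ε := half_lt_self hε
  have hσ0c : Tendsto (fun n => (σ n : ℂ)) atTop (𝓝 0) := by
    have := (Complex.continuous_ofReal.tendsto 0).comp hσ0
    rw [Complex.ofReal_zero] at this
    exact this
  have hg0 : ∀ z ∈ ball (c i) 3, Tendsto (fun n => (t n).g z - z) atTop (𝓝 0) := by
    intro z hz
    have h1 := hσ0c.smul (hgl z hz)
    rw [zero_smul] at h1
    refine h1.congr fun n => ?_
    rw [smul_smul, mul_inv_cancel₀ (hσc n), one_smul]
  have hgz : ∀ z ∈ ball (c i) 3, Tendsto (fun n => (t n).g z) atTop (𝓝 z) := by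
    intro z hz
    have h1 := (hg0 z hz).add_const z
    simpa using h1
  have hτl : ∀ z ∈ ball (c i) 3, Tendsto (fun n => (tau lam ((t n).g z) - tau lam z) / (σ n : ℂ))
      atTop (𝓝 (fderiv ℂ (tau lam) z (V z))) := by
    intro z hz
    have h1 := (hτa z hz).hasFDerivAt.hasFDerivWithinAt (s := univ)
    have h2 := h1.lim (hg0 z hz) (Eventually.of_forall fun _ => mem_univ _) (hgl z hz)
    refine h2.congr fun n => ?_
    rw [add_sub_cancel, smul_eq_mul, div_eq_inv_mul]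
  have hτ0 : ∀ z ∈ ball (c i) 3, Tendsto (fun n => tau lam ((t n).g z)) atTop
      (𝓝 (tau lam z)) := fun z hz =>
    ((hτa z hz).continuousAt.tendsto).comp (hgz z hz)
  have hc2 : c i ∈ Bd c 2 := mem_iUnion.2 ⟨i, mem_ball_self (by norm_num)⟩
  have hev1 : ∀ᶠ n in atTop, (t n).g (c i) ∈ Bd c 2 := by
    have h1 : ball (c i) 2 ∈ 𝓝 (c i) := ball_mem_nhds _ (by norm_num)
    filter_upwards [(hgz (c i) hci).eventually h1] with n hn
    exact mem_iUnion.2 ⟨i, hn⟩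
  have hQ : ∀ n, ∃ Q : Matrix (Fin 2) (Fin 2) ℝ, (t n).g (c i) ∈ Bd c 2 → (0 < Q.det ∧
      ∀ᶠ z' in 𝓝 (c i), ∀ j, (t n).a z' * lam j z' =
        ∑ k, ((Q k j : ℝ) : ℂ) * lam k ((t n).g z')) := by
    intro n
    by_cases h : (t n).g (c i) ∈ Bd c 2
    · obtain ⟨Q, U', h1, h2, h3, -, h5⟩ := hL.trans _ _ (hP n) (c i)
        (mem_ball_self (by norm_num)) hc2 h
      refine ⟨Q, fun _ => ⟨h1, ?_⟩⟩
      filter_upwards [h2.mem_nhds h3] with z' hz'
      exact h5 z' hz'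
    · exact ⟨0, fun h' => absurd h' h⟩
  choose Q hQ using hQ
  have hrel : ∀ z ∈ ball (c i) 3, ∀ᶠ n in atTop,
      tau lam z * (Q n 0 0 + Q n 1 0 * tau lam ((t n).g z)) =
        Q n 0 1 + Q n 1 1 * tau lam ((t n).g z) := by
    intro z hz
    obtain ⟨ρ, hρ1, hρ2⟩ : ∃ ρ, dist z (c i) < ρ ∧ ρ < 3 := exists_between hz
    have hρ0 : 0 < ρ := lt_of_le_of_lt dist_nonneg hρ1
    obtain ⟨M, hM⟩ : ∃ M, ∀ z ∈ closedBall (c i) ρ, ‖V z‖ ≤ M :=
      (isCompact_closedBall _ _).exists_bound_of_continuousOn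
        (hVd.continuousOn.mono (closedBall_subset_ball hρ2))
    have hM0 : 0 ≤ M := le_trans (norm_nonneg _) (hM (c i) (mem_closedBall_self hρ0.le))
    have hpos : 0 < (3 - ρ) / (M + 2) := div_pos (by linarith) (by linarith)
    have hmaps : ∀ᶠ n in atTop, ∀ z' ∈ ball (c i) ρ, (t n).g z' ∈ ball (c i) 3 := by
      filter_upwards [hlim 1 one_pos, hσ0.eventually_lt_const hpos] with n h1 h2 z' hz'
      have h3 := h1 z' (ball_subset_ball hρ2.le hz')
      have h4 := hM z' (ball_subset_closedBall hz')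
      have h5 := hσ n
      have h6 : ‖(t n).g z' - z'‖ ≤ σ n * (M + 1) := by
        have e1 : (t n).g z' - z' = ((t n).g z' - z' - (σ n : ℂ) • V z') + (σ n : ℂ) • V z' := by
          abel
        rw [e1]
        refine le_trans (norm_add_le _ _) ?_
        rw [norm_smul, Complex.norm_real, Real.norm_of_nonneg h5.le]
        nlinarith
      rw [lt_div_iff₀ (by linarith)] at h2
      rw [mem_ball] at hz' ⊢
      have h7 := dist_triangle ((t n).g z') z' (c i)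
      rw [dist_eq_norm ((t n).g z') z'] at h7
      nlinarith
    filter_upwards [hmaps, hev1] with n h1 h2
    obtain ⟨-, hQ2⟩ := hQ n h2
    obtain ⟨-, -, hg, ha, -, hne⟩ := hF.holo _ _ (hP n)
    have hρ4 : ball (c i) ρ ⊆ ball (c i) 4 := ball_subset_ball (by linarith)
    have hρ3 : ball (c i) ρ ⊆ ball (c i) 3 := ball_subset_ball (by linarith)
    have hid : ∀ j, EqOn (fun z' => (t n).a z' * lam j z')
        (fun z' => ∑ k, ((Q n k j : ℝ) : ℂ) * lam k ((t n).g z')) (ball (c i) ρ) := by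
      intro j
      have hcomp : ∀ k, DifferentiableOn ℂ (fun z' => lam k ((t n).g z')) (ball (c i) ρ) :=
        fun k => (hL.holo k).comp (hg.mono hρ4) fun z' hz' => hB3 (h1 z' hz')
      refine Pool.Agent.Helper53.SP.eqOn_ball ((ha.mono hρ4).mul ((hL.holo j).mono
        (hρ3.trans hB3))) (DifferentiableOn.fun_sum fun k _ => (hcomp k).const_mul _)
        (mem_ball_self hρ0) ?_
      filter_upwards [hQ2] with z' hz'
      exact hz' j
    have hzρ : z ∈ ball (c i) ρ := hρ1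
    have e0 := hid 0 hzρ
    have e1 := hid 1 hzρ
    simp only [Fin.sum_univ_two] at e0 e1
    have n0 := h0 z (hB3 hz)
    have n1 := h0 _ (hB3 (h1 z hzρ))
    have na := (hne z (hρ4 hzρ)).2
    have f0 : (t n).a z * lam 0 z / lam 0 ((t n).g z) =
        Q n 0 0 + Q n 1 0 * tau lam ((t n).g z) := by
      rw [e0, tau]
      field_simp
    have f1 : (t n).a z * lam 1 z / lam 0 ((t n).g z) =
        Q n 0 1 + Q n 1 1 * tau lam ((t n).g z) := by
      rw [e1, tau]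
      field_simp
    rw [← f0, ← f1, tau]
    field_simp
  have hdet : ∀ᶠ n in atTop, 0 < Q n 0 0 * Q n 1 1 - Q n 0 1 * Q n 1 0 := by
    filter_upwards [hev1] with n hn
    have := (hQ n hn).1
    rwa [Matrix.det_fin_two] at this
  by_cases hc : ∀ z ∈ ball (c i) 3, tau lam z = tau lam (c i)
  · refine ⟨0, 0, 0, fun z hz => ?_⟩
    have h1 : tau lam =ᶠ[𝓝 z] fun _ => tau lam (c i) := by
      filter_upwards [isOpen_ball.mem_nhds hz] with y hy
      exact hc y hy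
    rw [h1.fderiv_eq]
    simp
  · push Not at hc
    obtain ⟨z₁, hz₁, hne⟩ := hc
    have hinf : (tau lam '' ball (c i) 3).Infinite := by
      have hpc : IsPreconnected (tau lam '' ball (c i) 3) :=
        (convex_ball (c i) 3).isPreconnected.image _ (hτd.mono hB3).continuousOn
      exact hpc.infinite_of_nontrivial ⟨_, mem_image_of_mem _ hz₁, _, mem_image_of_mem _ hci, hne⟩
    obtain ⟨s, hs, hcard⟩ := hinf.exists_subset_card_eq 3
    obtain ⟨x1, x2, x3, h12, h13, h23, rfl⟩ := Finset.card_eq_three.1 hcard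
    obtain ⟨y1, hy1, rfl⟩ := hs (show x1 ∈ (({x1, x2, x3} : Finset ℂ) : Set ℂ) by simp)
    obtain ⟨y2, hy2, rfl⟩ := hs (show x2 ∈ (({tau lam y1, x2, x3} : Finset ℂ) : Set ℂ) by simp)
    obtain ⟨y3, hy3, rfl⟩ :=
      hs (show x3 ∈ (({tau lam y1, tau lam y2, x3} : Finset ℂ) : Set ℂ) by simp)
    have hy : ∀ k, (![y1, y2, y3] : Fin 3 → Cn b) k ∈ ball (c i) 3 := by
      intro k
      fin_cases k
      · exact hy1
      · exact hy2
      · exact hy3
    obtain ⟨p, q, r, hpqr⟩ := quad_lim (α := fun n => Q n 0 0) (β := fun n => Q n 0 1)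
      (γ := fun n => Q n 1 0) (δ := fun n => Q n 1 1) hσ hdet
      (X := fun k n => tau lam ((t n).g ((![y1, y2, y3] : Fin 3 → Cn b) k)))
      (x := fun k => tau lam ((![y1, y2, y3] : Fin 3 → Cn b) k))
      (v := fun k => fderiv ℂ (tau lam) ((![y1, y2, y3] : Fin 3 → Cn b) k)
        (V ((![y1, y2, y3] : Fin 3 → Cn b) k))) h12 h13 h23
      (fun k => hτ0 _ (hy k)) (fun k => hτl _ (hy k)) (fun k => hrel _ (hy k))
    exact ⟨p, q, r, fun z hz => hpqr _ _ _ (hτ0 z hz) (hτl z hz) (hrel z hz)⟩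

end Pool.Agent.Helper9.SP
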