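import Pool.Agent.Helper10.SP.GoalsT
import Pool.Agent.Helper67.Lin.MOLW
import Pool.Agent.Helper45.Lin.KMain

/-! # Packet SP-REGL, part A: convolutions of complex functions -/

open Complex Metric Set Filter Topology MeasureTheory
open scoped ContDiff ComplexConjugate ComplexOrder Manifold Convolution

namespace Pool.Agent.Helper9.SP

open Pool.Agent.Helper95.Lin Pool.Agent.Helper16.Abund Pool.Agent.Helper92.Orb
open Pool.Agent.Helper10.SP
open Pool.Agent.Helper67.Lin (mol_contDiff mol_cs norm_lt_of_mol)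

variable {n : ℕ}

/-- The convolution of two complex functions. -/
noncomputable def cv (f φ : Cn n → ℂ) (x : Cn n) : ℂ := ∫ y, f y * φ (x - y)

theorem cv_eq (f φ : Cn n → ℂ) :
    cv f φ = (f ⋆[ContinuousLinearMap.mul ℝ ℂ, volume] φ) := rfl

theorem cv_contDiff {f φ : Cn n → ℂ} (hf : LocallyIntegrable f) (hg : ContDiff ℝ ∞ φ)
    (hc : HasCompactSupport φ) : ContDiff ℝ ∞ (cv f φ) := by
  rw [cv_eq]
  exact hc.contDiff_convolution_right (ContinuousLinearMap.mul ℝ ℂ) hf hg

theorem cdir_cs {g : Cn n → ℂ} (hg : HasCompactSupport g) (v : Cn n) :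
    HasCompactSupport (fun y => fderiv ℝ g y v) := by
  refine (hg.fderiv ℝ).mono ?_
  intro y hy
  rw [Function.mem_support] at hy ⊢
  intro h
  apply hy
  rw [h]; rfl

theorem cdir_contDiff {g : Cn n → ℂ} (hg : ContDiff ℝ ∞ g) (v : Cn n) :
    ContDiff ℝ ∞ (fun y => fderiv ℝ g y v) :=
  (hg.fderiv_right (m := ∞) (by simp)).clm_apply contDiff_const

theorem fderiv_cv {f g : Cn n → ℂ} (hf : LocallyIntegrable f) (hg : ContDiff ℝ ∞ g)
    (hc : HasCompactSupport g) (v x : Cn n) :
    fderiv ℝ (cv f g) x v = cv f (fun y => fderiv ℝ g y v) x := by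
  rw [cv_eq, cv_eq]
  have h1 := hc.hasFDerivAt_convolution_right (ContinuousLinearMap.mul ℝ ℂ) (μ := volume) hf
    (hg.of_le (by simp)) x
  rw [h1.fderiv]
  exact convolution_precompR_apply (ContinuousLinearMap.mul ℝ ℂ) hf (hc.fderiv ℝ)
    (hg.continuous_fderiv (by simp)) x v

theorem int_cv {f φ : Cn n → ℂ} (hf : LocallyIntegrable f) (hg : Continuous φ)
    (hc : HasCompactSupport φ) (x : Cn n) : Integrable fun y => f y * φ (x - y) := by
  have h1 : Continuous fun y => φ (x - y) := hg.comp (continuous_const.sub continuous_id)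
  have h2 : HasCompactSupport fun y => φ (x - y) :=
    hc.comp_homeomorph (Homeomorph.subLeft x)
  have := hf.integrable_smul_right_of_hasCompactSupport h1 h2
  simpa [smul_eq_mul] using this

theorem cd_contDiff {g : Cn n → ℂ} (hg : ContDiff ℝ ∞ g) (l : Fin n) :
    ContDiff ℝ ∞ (cd l g) := by
  unfold cd
  exact (cdir_contDiff hg _).sub (contDiff_const.mul (cdir_contDiff hg _))

theorem cdb_contDiff {g : Cn n → ℂ} (hg : ContDiff ℝ ∞ g) (l : Fin n) :
    ContDiff ℝ ∞ (cdb l g) := by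
  unfold cdb
  exact (cdir_contDiff hg _).add (contDiff_const.mul (cdir_contDiff hg _))

theorem cd_cs {g : Cn n → ℂ} (hg : HasCompactSupport g) (l : Fin n) :
    HasCompactSupport (cd l g) := by
  refine (hg.fderiv ℝ).mono ?_
  intro y hy
  rw [Function.mem_support] at hy ⊢
  intro h
  apply hy
  unfold cd
  rw [h]
  simp

theorem cdb_cs {g : Cn n → ℂ} (hg : HasCompactSupport g) (l : Fin n) :
    HasCompactSupport (cdb l g) := by
  refine (hg.fderiv ℝ).mono ?_
  intro y hy
  rw [Function.mem_support] at hy ⊢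
  intro h
  apply hy
  unfold cdb
  rw [h]
  simp

theorem cd_cv {f g : Cn n → ℂ} (hf : LocallyIntegrable f) (hg : ContDiff ℝ ∞ g)
    (hc : HasCompactSupport g) (l : Fin n) (x : Cn n) : cd l (cv f g) x = cv f (cd l g) x := by
  unfold cd
  rw [fderiv_cv hf hg hc, fderiv_cv hf hg hc]
  unfold cv
  rw [← integral_const_mul, ← integral_sub]
  · refine integral_congr_ae (Eventually.of_forall fun y => ?_)
    show f y * _ - I * (f y * _) = f y * (_ - I * _)
    ring
  · exact int_cv hf (cdir_contDiff hg _).continuous (cdir_cs hc _) x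
  · exact (int_cv hf (cdir_contDiff hg _).continuous (cdir_cs hc _) x).const_mul I

theorem cdb_cv {f g : Cn n → ℂ} (hf : LocallyIntegrable f) (hg : ContDiff ℝ ∞ g)
    (hc : HasCompactSupport g) (l : Fin n) (x : Cn n) : cdb l (cv f g) x = cv f (cdb l g) x := by
  unfold cdb
  rw [fderiv_cv hf hg hc, fderiv_cv hf hg hc]
  unfold cv
  rw [← integral_const_mul, ← integral_add]
  · refine integral_congr_ae (Eventually.of_forall fun y => ?_)
    show f y * _ + I * (f y * _) = f y * (_ + I * _)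
    ring
  · exact int_cv hf (cdir_contDiff hg _).continuous (cdir_cs hc _) x
  · exact (int_cv hf (cdir_contDiff hg _).continuous (cdir_cs hc _) x).const_mul I

theorem cdir_reflect {g : Cn n → ℂ} (hg : ContDiff ℝ ∞ g) (x y v : Cn n) :
    fderiv ℝ (fun y => g (x - y)) y v = -(fderiv ℝ g (x - y) v) := by
  have h1 : HasFDerivAt (fun y : Cn n => x - y) (-(ContinuousLinearMap.id ℝ (Cn n))) y :=
    (hasFDerivAt_id y).const_sub x
  have h2 : HasFDerivAt g (fderiv ℝ g (x - y)) (x - y) :=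
    (hg.differentiable (by simp) _).hasFDerivAt
  have h3 := h2.comp y h1
  have h4 : fderiv ℝ (fun y => g (x - y)) y =
      (fderiv ℝ g (x - y)).comp (-(ContinuousLinearMap.id ℝ (Cn n))) := h3.fderiv
  rw [h4]
  simp

theorem cd_reflect {g : Cn n → ℂ} (hg : ContDiff ℝ ∞ g) (l : Fin n) (x y : Cn n) :
    cd l (fun y => g (x - y)) y = -(cd l g (x - y)) := by
  unfold cd
  rw [cdir_reflect hg, cdir_reflect hg]
  ring

theorem cdb_reflect {g : Cn n → ℂ} (hg : ContDiff ℝ ∞ g) (l : Fin n) (x y : Cn n) :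
    cdb l (fun y => g (x - y)) y = -(cdb l g (x - y)) := by
  unfold cdb
  rw [cdir_reflect hg, cdir_reflect hg]
  ring

theorem refl_contDiff {g : Cn n → ℂ} (hg : ContDiff ℝ ∞ g) (x : Cn n) :
    ContDiff ℝ ∞ (fun y => g (x - y)) := hg.comp (contDiff_const.sub contDiff_id)

theorem cd_sub {f g : Cn n → ℂ} {x : Cn n} (hf : DifferentiableAt ℝ f x)
    (hg : DifferentiableAt ℝ g x) (l : Fin n) :
    cd l (fun y => f y - g y) x = cd l f x - cd l g x := by
  unfold cd
  rw [fderiv_fun_sub hf hg]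
  simp only [_root_.sub_apply]
  ring

theorem cdb_sub {f g : Cn n → ℂ} {x : Cn n} (hf : DifferentiableAt ℝ f x)
    (hg : DifferentiableAt ℝ g x) (l : Fin n) :
    cdb l (fun y => f y - g y) x = cdb l f x - cdb l g x := by
  unfold cdb
  rw [fderiv_fun_sub hf hg]
  simp only [_root_.sub_apply]
  ring

theorem cd_add' {f g : Cn n → ℂ} {x : Cn n} (hf : DifferentiableAt ℝ f x)
    (hg : DifferentiableAt ℝ g x) (l : Fin n) :
    cd l (fun y => f y + g y) x = cd l f x + cd l g x := by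
  unfold cd
  rw [fderiv_fun_add hf hg]
  simp only [_root_.add_apply]
  ring

theorem cd_sum {ι : Type*} (s : Finset ι) {f : ι → Cn n → ℂ} {x : Cn n}
    (hf : ∀ i ∈ s, DifferentiableAt ℝ (f i) x) (l : Fin n) :
    cd l (fun y => ∑ i ∈ s, f i y) x = ∑ i ∈ s, cd l (f i) x := by
  unfold cd
  rw [fderiv_fun_sum hf]
  simp only [ContinuousLinearMap.sum_apply, Finset.mul_sum, Finset.sum_sub_distrib]

theorem cd_congr {f g : Cn n → ℂ} {x : Cn n} (h : f =ᶠ[𝓝 x] g) (l : Fin n) :
    cd l f x = cd l g x := by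
  unfold cd
  rw [h.fderiv_eq]

theorem cdb_congr {f g : Cn n → ℂ} {x : Cn n} (h : f =ᶠ[𝓝 x] g) (l : Fin n) :
    cdb l f x = cdb l g x := by
  unfold cdb
  rw [h.fderiv_eq]

theorem cdb_mul {f g : Cn n → ℂ} {x : Cn n} (hf : DifferentiableAt ℝ f x)
    (hg : DifferentiableAt ℝ g x) (l : Fin n) :
    cdb l (fun y => f y * g y) x = f x * cdb l g x + g x * cdb l f x := by
  unfold cdb
  rw [fderiv_fun_mul hf hg]
  simp only [_root_.add_apply, smul_apply, smul_eq_mul]
  ring

theorem cdb_sub_const (f : Cn n → ℂ) (c : ℂ) (x : Cn n) (l : Fin n) :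
    cdb l (fun y => f y - c) x = cdb l f x := by
  unfold cdb
  rw [fderiv_sub_const]

theorem cdb_zero (x : Cn n) (l : Fin n) : cdb l (fun _ : Cn n => (0 : ℂ)) x = 0 := by
  unfold cdb
  simp

theorem cd_zero (x : Cn n) (l : Fin n) : cd l (fun _ : Cn n => (0 : ℂ)) x = 0 := by
  unfold cd
  simp

/-- The complex mollifier. -/
noncomputable def mc (n : ℕ) (ε : ℝ) (y : Cn n) : ℂ := (mol n ε y : ℂ)

theorem mc_contDiff (ε : ℝ) : ContDiff ℝ ∞ (mc n ε) :=
  Complex.ofRealCLM.contDiff.comp (mol_contDiff ε)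

theorem mc_cs {ε : ℝ} (hε : 0 < ε) : HasCompactSupport (mc n ε) :=
  (mol_cs hε).comp_left (g := fun t : ℝ => (t : ℂ)) (by simp)

theorem mc_zero {ε : ℝ} (hε : 0 < ε) {y : Cn n} (h : ε ≤ ‖y‖) : mc n ε y = 0 := by
  unfold mc
  by_contra h0
  have : mol n ε y ≠ 0 := fun h1 => h0 (by rw [h1]; simp)
  exact absurd (norm_lt_of_mol hε this) (not_lt.2 h)

theorem mollc_eq (f : Cn n → ℂ) (ε : ℝ) : mollc f ε = cv f (mc n ε) := by
  funext x
  unfold mollc cv
  have h := integral_sub_left_eq_self (fun y => f y * mc n ε (x - y)) (volume : Measure (Cn n)) x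
  rw [← h]
  refine integral_congr_ae (Eventually.of_forall fun y => ?_)
  show f (x - y) * _ = f (x - y) * mc n ε (x - (x - y))
  rw [sub_sub_cancel]
  rfl

end Pool.Agent.Helper9.SP
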