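import Pool.Agent.Helper9.SP.ReglA

/-! # Packet SP-REGL, part B: the regularized equation -/

open Complex Metric Set Filter Topology MeasureTheory
open scoped ContDiff ComplexConjugate ComplexOrder Manifold Convolution

namespace Pool.Agent.Helper9.SP

open Pool.Agent.Helper95.Lin Pool.Agent.Helper16.Abund Pool.Agent.Helper92.Orb
open Pool.Agent.Helper10.SP

variable {n : ℕ}

theorem int_mul {f g : Cn n → ℂ} (hf : LocallyIntegrable f) (hg : Continuous g)
    (hc : HasCompactSupport g) : Integrable fun y => f y * g y := by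
  have := hf.integrable_smul_right_of_hasCompactSupport hg hc
  simpa [smul_eq_mul] using this

theorem cdb_neg (f : Cn n → ℂ) (x : Cn n) (l : Fin n) :
    cdb l (fun y => -f y) x = -cdb l f x := by
  unfold cdb
  rw [fderiv_fun_neg]
  simp only [_root_.neg_apply]
  ring

theorem dAt {g : Cn n → ℂ} (hg : ContDiff ℝ ∞ g) (x : Cn n) : DifferentiableAt ℝ g x :=
  hg.differentiable (by simp) x

/-- The derivative in the kernel of the commutator. -/
theorem phi_eq {f a : Cn n → ℂ} (hf : LocallyIntegrable f) (ha : ContDiff ℝ ∞ a)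
    (hac : HasCompactSupport a) {ε : ℝ} (hε : 0 < ε) (k : Fin n) (x : Cn n) :
    ∫ y, f y * cdb k (fun y' => (a y' - a x) * (mol n ε (x - y') : ℂ)) y =
      (cv (fun y => f y * cdb k a y) (mc n ε) x - cv (fun y => f y * a y) (cdb k (mc n ε)) x) +
        a x * cv f (cdb k (mc n ε)) x := by
  have hm := mc_contDiff (n := n) ε
  have hmc := mc_cs (n := n) hε
  have h1 : ∀ y, f y * cdb k (fun y' => (a y' - a x) * (mol n ε (x - y') : ℂ)) y =
      ((f y * cdb k a y) * mc n ε (x - y) - (f y * a y) * cdb k (mc n ε) (x - y)) +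
        a x * (f y * cdb k (mc n ε) (x - y)) := by
    intro y
    have h2 : cdb k (fun y' => (a y' - a x) * mc n ε (x - y')) y =
        (a y - a x) * cdb k (fun y' => mc n ε (x - y')) y +
          mc n ε (x - y) * cdb k (fun y' => a y' - a x) y :=
      cdb_mul ((dAt ha y).sub_const _) (dAt (refl_contDiff hm x) y) k
    have h3 : cdb k (fun y' => (a y' - a x) * (mol n ε (x - y') : ℂ)) y =
        cdb k (fun y' => (a y' - a x) * mc n ε (x - y')) y := rfl
    rw [h3, h2, cdb_reflect hm, cdb_sub_const]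
    ring
  rw [integral_congr_ae (Eventually.of_forall h1)]
  have hb := (cdb_contDiff hm k).continuous
  have hbc := cdb_cs hmc k
  have i1 : Integrable fun y => (f y * cdb k a y) * mc n ε (x - y) :=
    int_cv (int_mul hf (cdb_contDiff ha k).continuous (cdb_cs hac k)).locallyIntegrable
      hm.continuous hmc x
  have i2 : Integrable fun y => (f y * a y) * cdb k (mc n ε) (x - y) :=
    int_cv (int_mul hf ha.continuous hac).locallyIntegrable hb hbc x
  have i3 : Integrable fun y => f y * cdb k (mc n ε) (x - y) := int_cv hf hb hbc x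
  have i12 : Integrable fun y => (f y * cdb k a y) * mc n ε (x - y) -
      (f y * a y) * cdb k (mc n ε) (x - y) := i1.sub i2
  rw [integral_add i12 (i3.const_mul _), integral_sub i1 i2, integral_const_mul]
  rfl

/-- The weak expression. -/
theorem weak_eq {f a : Cn n → ℂ} (hf : LocallyIntegrable f) (ha : ContDiff ℝ ∞ a)
    (hac : HasCompactSupport a) {ε : ℝ} (hε : 0 < ε) (k j : Fin n) (x : Cn n) :
    ∫ y, f y * cdb k (fun y' => a y' * cd j (fun z => mc n ε (x - z)) y') y =
      cv (fun y => f y * a y) (cdb k (cd j (mc n ε))) x -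
        cv (fun y => f y * cdb k a y) (cd j (mc n ε)) x := by
  have hm := mc_contDiff (n := n) ε
  have hmc := mc_cs (n := n) hε
  have hd := cd_contDiff hm j
  have hdc := cd_cs hmc j
  have h0 : (fun y' => a y' * cd j (fun z => mc n ε (x - z)) y') =
      fun y' => a y' * -(cd j (mc n ε) (x - y')) := by
    funext y'
    rw [cd_reflect hm]
  have h1 : ∀ y, f y * cdb k (fun y' => a y' * cd j (fun z => mc n ε (x - z)) y') y =
      (f y * a y) * cdb k (cd j (mc n ε)) (x - y) -
        (f y * cdb k a y) * cd j (mc n ε) (x - y) := by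
    intro y
    have hneg : DifferentiableAt ℝ (fun y' => -cd j (mc n ε) (x - y')) y :=
      (dAt (refl_contDiff hd x) y).neg
    rw [h0, cdb_mul (dAt ha y) hneg k, cdb_neg, cdb_reflect hd]
    ring
  rw [integral_congr_ae (Eventually.of_forall h1)]
  have i1 : Integrable fun y => (f y * cdb k a y) * cd j (mc n ε) (x - y) :=
    int_cv (int_mul hf (cdb_contDiff ha k).continuous (cdb_cs hac k)).locallyIntegrable
      hd.continuous hdc x
  have i2 : Integrable fun y => (f y * a y) * cdb k (cd j (mc n ε)) (x - y) :=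
    int_cv (int_mul hf ha.continuous hac).locallyIntegrable (cdb_contDiff hd k).continuous
      (cdb_cs hdc k) x
  rw [integral_sub i2 i1]
  rfl

/-- The regular part. -/
noncomputable def Gp (f a : Cn n → ℂ) (ε : ℝ) (k : Fin n) (x : Cn n) : ℂ :=
  cv (fun y => f y * cdb k a y) (mc n ε) x - cv (fun y => f y * a y) (cdb k (mc n ε)) x

theorem Gp_contDiff {f a : Cn n → ℂ} (hf : LocallyIntegrable f) (ha : ContDiff ℝ ∞ a)
    (hac : HasCompactSupport a) {ε : ℝ} (hε : 0 < ε) (k : Fin n) : ContDiff ℝ ∞ (Gp f a ε k) := by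
  have hm := mc_contDiff (n := n) ε
  have hmc := mc_cs (n := n) hε
  exact (cv_contDiff (int_mul hf (cdb_contDiff ha k).continuous (cdb_cs hac k)).locallyIntegrable
    hm hmc).sub (cv_contDiff (int_mul hf ha.continuous hac).locallyIntegrable
    (cdb_contDiff hm k) (cdb_cs hmc k))

theorem cd_Gp (hWIRT : S_WIRT) {f a : Cn n → ℂ} (hf : LocallyIntegrable f) (ha : ContDiff ℝ ∞ a)
    (hac : HasCompactSupport a) {ε : ℝ} (hε : 0 < ε) (k j : Fin n) (x : Cn n) :
    cd j (Gp f a ε k) x =
      -∫ y, f y * cdb k (fun y' => a y' * cd j (fun z => mc n ε (x - z)) y') y := by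
  have hm := mc_contDiff (n := n) ε
  have hmc := mc_cs (n := n) hε
  have l1 := (int_mul hf (cdb_contDiff ha k).continuous (cdb_cs hac k)).locallyIntegrable
  have l2 := (int_mul hf ha.continuous hac).locallyIntegrable
  rw [weak_eq hf ha hac hε]
  have h1 : cd j (Gp f a ε k) x = cd j (cv (fun y => f y * cdb k a y) (mc n ε)) x -
      cd j (cv (fun y => f y * a y) (cdb k (mc n ε))) x :=
    cd_sub (dAt (cv_contDiff l1 hm hmc) x)
      (dAt (cv_contDiff l2 (cdb_contDiff hm k) (cdb_cs hmc k)) x) j
  rw [h1, cd_cv l1 hm hmc, cd_cv l2 (cdb_contDiff hm k) (cdb_cs hmc k)]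
  have h2 : cd j (cdb k (mc n ε)) = cdb k (cd j (mc n ε)) := by
    funext y
    exact ((hWIRT univ isOpen_univ (mc n ε) (mc n ε) hm.contDiffOn hm.contDiffOn).2.2.2.2.1
      j k y (mem_univ y)).2.2
  rw [h2]
  ring

/-- The regularized equation: `u = f * mol` satisfies the equation with right side the
commutator. -/
theorem reg_eq (hWIRT : S_WIRT) {T : Set (Cn n)} {A : Cn n → Matrix (Fin n) (Fin n) ℂ}
    {f f₁ : Cn n → ℂ}
    (hw : ∀ ζ : Cn n → ℂ, ContDiff ℝ ∞ ζ → HasCompactSupport ζ → tsupport ζ ⊆ T →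
      ∫ x in T, f x * ∑ k, ∑ j, cdb k (fun y => A y k j * cd j ζ y) x = 0)
    (hf : LocallyIntegrable f₁) {a : Fin n → Fin n → Cn n → ℂ}
    (ha : ∀ k j, ContDiff ℝ ∞ (a k j)) (hac : ∀ k j, HasCompactSupport (a k j))
    {ε : ℝ} (hε : 0 < ε) {x : Cn n} (hxT : closedBall x ε ⊆ T)
    {δ : ℝ} (hεδ : ε < δ) (hag : ∀ k j, ∀ y ∈ ball x δ, a k j y = A y k j)
    (hfg : ∀ y ∈ ball x δ, f₁ y = f y) :
    ∑ j, cd j (fun y => ∑ k, A y k j * cdb k (mollc f₁ ε) y) x =
      ∑ j, cd j (fun y => ∑ k, ∫ z, f₁ z * cdb k (fun z' => (a k j z' - a k j y) *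
        (mol n ε (y - z') : ℂ)) z) x := by
  have hm := mc_contDiff (n := n) ε
  have hmc := mc_cs (n := n) hε
  -- the test function
  have hζ : ContDiff ℝ ∞ (fun z => mc n ε (x - z)) := refl_contDiff hm x
  have hζ0 : ∀ z ∉ closedBall x ε, mc n ε (x - z) = 0 := by
    intro z hz
    refine mc_zero hε ?_
    rw [mem_closedBall, dist_eq_norm, norm_sub_rev] at hz
    exact (not_le.1 hz).le
  have hζs : tsupport (fun z => mc n ε (x - z)) ⊆ closedBall x ε := by
    refine closure_minimal ?_ isClosed_closedBall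
    intro z hz
    by_contra h
    exact hz (hζ0 z h)
  have hζc : HasCompactSupport (fun z => mc n ε (x - z)) :=
    HasCompactSupport.of_support_subset_isCompact (isCompact_closedBall x ε)
      ((subset_tsupport _).trans hζs)
  have hw' := hw _ hζ hζc (hζs.trans hxT)
  -- the sum of the weak expressions vanishes
  have hcs : ∀ k j, HasCompactSupport (fun y => a k j y * cd j (fun z => mc n ε (x - z)) y) :=
    fun k j => (hac k j).mul_right
  have hcd : ∀ k j, ContDiff ℝ ∞ (fun y => a k j y * cd j (fun z => mc n ε (x - z)) y) :=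
    fun k j => (ha k j).mul (cd_contDiff hζ j)
  have hsum : ∑ j, ∑ k, ∫ y, f₁ y * cdb k (fun y' => a k j y' *
      cd j (fun z => mc n ε (x - z)) y') y = 0 := by
    have hint : ∀ k j, Integrable fun y => f₁ y * cdb k (fun y' => a k j y' *
        cd j (fun z => mc n ε (x - z)) y') y := fun k j =>
      int_mul hf (cdb_contDiff (hcd k j) k).continuous (cdb_cs (hcs k j) k)
    have e1 : ∑ j, ∑ k, ∫ y, f₁ y * cdb k (fun y' => a k j y' *
        cd j (fun z => mc n ε (x - z)) y') y =
        ∫ y, f₁ y * ∑ k, ∑ j, cdb k (fun y' => a k j y' * cd j (fun z => mc n ε (x - z)) y') y := by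
      rw [Finset.sum_comm]
      simp only [Finset.mul_sum]
      rw [integral_finset_sum _ fun k _ => integrable_finset_sum _ fun j _ => hint k j]
      refine Finset.sum_congr rfl fun k _ => ?_
      rw [integral_finset_sum _ fun j _ => hint k j]
    have hzero : ∀ (b : Cn n → ℂ) (k j : Fin n), ∀ y ∉ closedBall x ε,
        cdb k (fun y' => b y' * cd j (fun z => mc n ε (x - z)) y') y = 0 := by
      intro b k j y hy
      have hev : ∀ᶠ y' in 𝓝 y, y' ∉ closedBall x ε := isClosed_closedBall.isOpen_compl.mem_nhds hy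
      have h1 : (fun y' => b y' * cd j (fun z => mc n ε (x - z)) y') =ᶠ[𝓝 y] fun _ => 0 := by
        filter_upwards [hev] with y' hy'
        have h2 : (fun z => mc n ε (x - z)) =ᶠ[𝓝 y'] fun _ => 0 := by
          filter_upwards [isClosed_closedBall.isOpen_compl.mem_nhds hy'] with z hz
          exact hζ0 z hz
        rw [cd_congr h2, cd_zero, mul_zero]
      rw [cdb_congr h1, cdb_zero]
    have e2 : ∫ y in T, f y * ∑ k, ∑ j, cdb k (fun y' => A y' k j *
        cd j (fun z => mc n ε (x - z)) y') y =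
        ∫ y in T, f₁ y * ∑ k, ∑ j, cdb k (fun y' => a k j y' *
          cd j (fun z => mc n ε (x - z)) y') y := by
      refine integral_congr_ae (Eventually.of_forall fun y => ?_)
      show f y * _ = f₁ y * _
      by_cases hy : y ∈ closedBall x ε
      · have hyδ : y ∈ ball x δ := closedBall_subset_ball hεδ hy
        rw [hfg y hyδ]
        congr 1
        refine Finset.sum_congr rfl fun k _ => Finset.sum_congr rfl fun j _ => ?_
        refine cdb_congr ?_ k
        filter_upwards [isOpen_ball.mem_nhds hyδ] with y' hy'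
        rw [hag k j y' hy']
      · have h1 : ∑ k, ∑ j, cdb k (fun y' => A y' k j * cd j (fun z => mc n ε (x - z)) y') y = 0 :=
          Finset.sum_eq_zero fun k _ => Finset.sum_eq_zero fun j _ =>
            hzero (fun y' => A y' k j) k j y hy
        have h2 : ∑ k, ∑ j, cdb k (fun y' => a k j y' * cd j (fun z => mc n ε (x - z)) y') y = 0 :=
          Finset.sum_eq_zero fun k _ => Finset.sum_eq_zero fun j _ => hzero _ k j y hy
        rw [h1, h2, mul_zero, mul_zero]
    rw [e1, ← setIntegral_eq_integral_of_forall_compl_eq_zero (s := T), ← e2, hw']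
    intro y hy
    have hy' : y ∉ closedBall x ε := fun h => hy (hxT h)
    rw [Finset.sum_eq_zero fun k _ => Finset.sum_eq_zero fun j _ => hzero _ k j y hy', mul_zero]
  -- decompose the right side
  have hu : ContDiff ℝ ∞ (mollc f₁ ε) := by
    rw [mollc_eq]
    exact cv_contDiff hf hm hmc
  have hR : ∀ j, cd j (fun y => ∑ k, ∫ z, f₁ z * cdb k (fun z' => (a k j z' - a k j y) *
        (mol n ε (y - z') : ℂ)) z) x =
      ∑ k, cd j (Gp f₁ (a k j) ε k) x + cd j (fun y => ∑ k, A y k j * cdb k (mollc f₁ ε) y) x := by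
    intro j
    have h1 : (fun y => ∑ k, ∫ z, f₁ z * cdb k (fun z' => (a k j z' - a k j y) *
        (mol n ε (y - z') : ℂ)) z) =
        fun y => (fun y => ∑ k, Gp f₁ (a k j) ε k y) y +
          (fun y => ∑ k, a k j y * cdb k (mollc f₁ ε) y) y := by
      funext y
      show _ = ∑ k, Gp f₁ (a k j) ε k y + ∑ k, a k j y * cdb k (mollc f₁ ε) y
      rw [← Finset.sum_add_distrib]
      refine Finset.sum_congr rfl fun k _ => ?_
      rw [phi_eq hf (ha k j) (hac k j) hε, mollc_eq, cdb_cv hf hm hmc]
      rfl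
    rw [h1, cd_add', cd_sum]
    · congr 1
      refine cd_congr ?_ j
      filter_upwards [isOpen_ball.mem_nhds (mem_ball_self (hε.trans hεδ))] with y hy
      exact Finset.sum_congr rfl fun k _ => by rw [hag k j y hy]
    · exact fun k _ => dAt (Gp_contDiff hf (ha k j) (hac k j) hε k) x
    · exact dAt (ContDiff.sum fun k _ => Gp_contDiff hf (ha k j) (hac k j) hε k) x
    · exact dAt (ContDiff.sum fun k _ => (ha k j).mul (cdb_contDiff hu k)) x
  simp only [hR]
  rw [Finset.sum_add_distrib]
  have hG : ∑ j, ∑ k, cd j (Gp f₁ (a k j) ε k) x = 0 := by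
    simp only [fun k j => cd_Gp hWIRT hf (ha k j) (hac k j) hε k j x]
    simp only [Finset.sum_neg_distrib]
    rw [hsum, neg_zero]
  rw [hG, zero_add]

end Pool.Agent.Helper9.SP
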